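import Pool.Agent.Lib.MP_aa337a_pr.Sb.Rec

/-! A fresh walk does not stay above its first level for ever. -/

set_option autoImplicit false

namespace Pool.Agent.Lib.MP_aa337a_pr.Sb

open Finset

variable {β : ℝ} {d : ℕ}

lemma tr_ge (hd : 0 < d) (hβ : 0 ≤ β) {x : Pt d} {V : Pt d → ℕ} {t : St d} {B : ℕ}
    (h : V (x + step t) ≤ B) : Real.exp (-β * B) / (2 * d) ≤ tr β x V t := by
  have : (V (x + step t) : ℝ) ≤ B := by exact_mod_cast h
  exact div_le_div₀ (Real.exp_pos _).le (Real.exp_le_exp.2 (by nlinarith)) (zz_pos hd x V)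
    (zz_le hβ x V)

lemma one_step (hd : 0 < d) (hβ : 0 ≤ β) {x : Pt d} {V : Pt d → ℕ} {t : St d}
    (h : V (x + step t) = 0) (n : ℕ) (E : (ℕ → Pt d) → Prop) :
    1 / (2 * d) * pr β n (x + step t) (add1 V (x + step t)) (fun p => E (cons x p)) ≤
      pr β (n + 1) x V E := by
  have h1 := tr_ge hd hβ h.le
  simp only [Nat.cast_zero, mul_zero, Real.exp_zero] at h1
  rw [pr_succ]
  exact (mul_le_mul_of_nonneg_right h1 (pr_nonneg _ _ _ _)).trans (single_le_sum
    (f := fun s => tr β x V s * pr β n (x + step s) (add1 V (x + step s)) fun p => E (cons x p))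
    (fun _ _ => mul_nonneg (tr_nonneg _ _ _) (pr_nonneg _ _ _ _)) (mem_univ t))

lemma run (hd : 0 < d) (hβ : 0 ≤ β) (s t : St d) (hst : 0 ≤ lev s (step t)) :
    ∀ (j : ℕ) (x : Pt d) (V : Pt d → ℕ),
      (∀ z, lev s x ≤ lev s z → lev t x < lev t z → V z = 0) →
      (1 / (2 * d) : ℝ) ^ j ≤ pr β j x V fun p => lev t x + j ≤ lev t (p j)
  | 0, x, V, _ => by rw [pow_zero]; exact (ind_of (by simp)).ge
  | j + 1, x, V, h => by
    have e1 := lev_add t x (step t)
    have e2 := lev_add s x (step t)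
    rw [lev_step_self] at e1
    refine le_trans ?_ (one_step hd hβ (h (x + step t) (by omega) (by omega)) j _)
    rw [pow_succ']
    refine mul_le_mul_of_nonneg_left ((run hd hβ s t hst j (x + step t) _ fun z a b => ?_).trans
      (pr_mono _ fun p _ a => ?_)) (by positivity)
    · have : x + step t ≠ z := fun e => by rw [e] at b; omega
      simp [add1, this, h z (by omega) (by omega)]
    · rw [cons_succ]
      push_cast
      omega

/-- The path stays in a strip up to time `n`. -/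
def Strip (i : Fin d) (M n : ℕ) (p : ℕ → Pt d) : Prop := ∀ k ≤ n, ∀ b, lev (i, b) (p k) ≤ M

lemma strip_dep (i : Fin d) (M n : ℕ) : Dep n (Strip i M n) := fun _ _ e a k hk b =>
  e k hk ▸ a k hk b

lemma lev_not (i : Fin d) (b : Bool) (x : Pt d) : lev (i, !b) x = -lev (i, b) x := by
  cases b <;> simp [lev]

lemma rec_run (hd : 0 < d) (hβ : 0 ≤ β) (i : Fin d) (M : ℕ) {s : St d} (y : Pt d)
    (V : Pt d → ℕ) (hV : Rec s y V) : (1 / (2 * d) : ℝ) ^ (M + 1 + 1) ≤
      pr β (M + 1 + 1) y V fun q => ∃ b, lev (i, b) (q 0) + M < lev (i, b) (q (M + 1 + 1)) := by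
  obtain ⟨b, h1, h2⟩ : ∃ b, 0 ≤ lev s (step (i, b)) ∧ 0 ≤ lev (i, b) (step s) := by
    by_cases h : s.1 = i
    · subst h
      exact ⟨s.2, by rw [lev_step_self]; omega, by rw [lev_step_self]; omega⟩
    · exact ⟨true, (lev_step_ne (t := (i, true)) h).ge, (lev_step_ne (s := (i, true))
        (Ne.symm h)).ge⟩
  have e1 := lev_add s y (step s)
  have e2 := lev_add (i, b) y (step s)
  rw [lev_step_self] at e1
  have e3 : ∀ z, lev s y < lev s z → V z = 0 := fun z hz => (hV z hz.le).trans (dl_lt hz)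
  refine le_trans ?_ (one_step hd hβ (e3 (y + step s) (by omega)) _ _)
  rw [pow_succ']
  refine mul_le_mul_of_nonneg_left ((run hd hβ s (i, b) h1 (M + 1) (y + step s) _
    fun z a c => ?_).trans (pr_mono _ fun p _ a => ⟨b, ?_⟩)) (by positivity)
  · have : y + step s ≠ z := fun e => by rw [e] at c; omega
    simp [add1, this, e3 z (by omega)]
  · rw [cons_succ, cons_zero]
    push_cast at a
    omega

lemma in_box (hd : 0 < d) (hβ : 0 ≤ β) (r m n : ℕ) (hm : 0 < m)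
    (h : (2 * r + 1) ^ (d + 2) * (d * m ^ 3) ≤ 2 * (n + 1)) :
    pr β n 0 (dl 0) (fun p => ∀ k ≤ n, p k ∈ box d r) ≤ 3 / m := by
  have h1 := time_in_box (β := β) hd hβ r m n hm h
  have h2 := pr_count (β := β) (range (n + 1)) (n := n) (x := (0 : Pt d)) (dl 0)
    (E := fun p => ∀ k ≤ n, p k ∈ box d r) (fun k p => p k ∈ box d r) (n + 1) fun p _ a => by
      rw [sum_congr rfl fun k hk => ind_of (a k (Nat.lt_succ_iff.1 (mem_range.1 hk)))]
      simp
  rw [sum_congr rfl fun k hk => (pr_trunc' hd (Nat.lt_succ_iff.1 (mem_range.1 hk)) _ _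
    fun p q e a => e k le_rfl ▸ a)] at h2
  have h3 : ∀ k, pr β k 0 (dl 0) (fun p => p k ∈ box d r) =
      expect β d k fun x _ => if x ∈ box d r then (1 : ℝ) else 0 := fun k => by
    rw [link' (fun x => if x ∈ box d r then (1 : ℝ) else 0)]
    exact fx_congr _ fun p _ => by simp [ind]
  simp only [h3] at h2
  have h4 : (0 : ℝ) < n + 1 := by positivity
  refine le_of_mul_le_mul_left (h2.trans (h1.trans (le_of_eq ?_))) h4
  ring

lemma exists_pow {r ε : ℝ} (hr : 0 < r) (hε : 0 < ε) : ∃ k : ℕ, (1 - r) ^ k ≤ ε :=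
  (exists_pow_lt_of_lt_one hε (by linarith)).imp fun _ h => h.le

lemma strip (hd : 0 < d) (hβ : 0 ≤ β) (i : Fin d) (M : ℕ) {ε : ℝ} (hε : 0 < ε) :
    ∃ n, ∀ m, n ≤ m → pr β m 0 (dl 0) (Strip i M n) ≤ ε := by
  have hd' : (1 : ℝ) ≤ d := by exact_mod_cast hd
  obtain ⟨k, hk⟩ := exists_pow (r := (1 / (2 * d) : ℝ) ^ (2 * M + 1 + 1)) (by positivity)
    (show 0 < ε / 2 / (2 * d) by positivity)
  obtain ⟨m, hm⟩ := exists_nat_gt (6 / ε)
  have hm0 : (0 : ℝ) < m := lt_trans (by positivity) hm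
  obtain ⟨r, hr⟩ : ∃ r, r = k * (2 * M + 1 + 1 + 1) := ⟨_, rfl⟩
  obtain ⟨n, hn⟩ : ∃ n, n = (2 * r + 1) ^ (d + 2) * (d * m ^ 3) := ⟨_, rfl⟩
  refine ⟨n, fun l hl => ?_⟩
  rw [pr_trunc' hd hl _ _ (strip_dep i M n)]
  have h1 := in_box (β := β) hd hβ r m n (by exact_mod_cast hm0) (by omega)
  have h2 := pr_union (β := β) (univ : Finset (St d)) (n := n) (x := 0) (dl 0)
    (E := fun p => Strip i M n p ∧ ¬∀ k ≤ n, p k ∈ box d r)
    (fun s => Fail s (2 * M + 1 + 1) (fun q => ∃ b, lev (i, b) (q 0) + (2 * M : ℕ) <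
      lev (i, b) (q (2 * M + 1 + 1))) k 1) (c := ε / 2 / (2 * d)) (fun p hp a => ?_)
    fun s _ => (attempts hd (pow_le_one₀ (by positivity) (by
      rw [div_le_one (by positivity)]; linarith)) (fun p q e ⟨b, a⟩ => ⟨b, by
        rwa [← e 0 (by omega), ← e _ le_rfl]⟩) (rec_run hd hβ i (2 * M)) k 1 n 0 _
      (below_dl (by rw [lev_zero]; omega))).trans hk
  · have h3 : (3 / m : ℝ) ≤ ε / 2 := by
      rw [div_lt_iff₀ hε] at hm
      rw [div_le_iff₀ hm0]
      linarith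
    have h4 : ((univ : Finset (St d)).card : ℝ) * (ε / 2 / (2 * d)) = ε / 2 := by
      simp only [card_univ, Fintype.card_prod, Fintype.card_fin, Fintype.card_bool]
      push_cast
      field_simp
    rw [pr_split _ _ _ _ fun p => ∀ k ≤ n, p k ∈ box d r]
    have h5 := pr_mono (β := β) (n := n) (x := (0 : Pt d)) (dl 0)
      (E := fun p => Strip i M n p ∧ ∀ k ≤ n, p k ∈ box d r) fun p _ a => a.2
    linarith
  · obtain ⟨a, b⟩ := a
    have a' : ∀ t c, lev (i, c) (p t) ≤ M := fun t c => by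
      rcases le_total t n with e | e
      · exact a t e c
      · rw [hp.2.2 t e]
        exact a n le_rfl c
    push Not at b
    obtain ⟨t, -, b⟩ := b
    obtain ⟨j, hj⟩ : ∃ j, p t j ∉ Icc (-(r : ℤ)) r := by
      by_contra hc
      push Not at hc
      exact b (Fintype.mem_piFinset.2 hc)
    obtain ⟨c, hc⟩ : ∃ c, 1 + (r : ℤ) ≤ lev (j, c) (p t) := by
      rw [mem_Icc] at hj
      by_cases e : p t j ≤ r
      · exact ⟨false, by simp only [lev]; simp; omega⟩
      · exact ⟨true, by simp only [lev]; simp; omega⟩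
    refine ⟨(j, c), mem_univ _, ⟨t, by rw [hr] at hc; exact_mod_cast hc⟩, ?_⟩
    rintro l - ⟨u, -, -, e, he⟩
    have b1 := a' (0 + u) (!e)
    have b2 := a' (2 * M + 1 + 1 + u) e
    rw [lev_not] at b1
    push_cast at he
    omega

/-- The path reaches level `H` and comes back to level zero. -/
def Back (s : St d) (H : ℤ) (p : ℕ → Pt d) : Prop :=
  ∃ t u, t ≤ u ∧ H ≤ lev s (p t) ∧ lev s (p u) ≤ 0

lemma noback (hd : 0 < d) (hβ : 0 ≤ β) (s : St d) {r ε : ℝ} (hr : ∀ m, r ≤ rho β s m) {J : ℕ}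
    (hJ1 : 1 ≤ J) (hJ : rho β s J ≤ r + ε) (k n : ℕ) :
    pr β n 0 (dl 0) (Back s (1 + k * (J + 1))) ≤ (1 - r) ^ k + k * (2 * d * ε) := by
  have hε : 0 ≤ ε := by linarith [hr J]
  have h0 : ∀ h : ℤ, 0 < h → Below s h 0 (dl 0) := fun h a => below_dl (by rwa [lev_zero])
  refine (pr_or _ (Fail s J (Stay s J) k 1) (fun p => ∃ j ∈ range k, Hit s (1 + j * (J + 1))
    (fun q => Stay s J q ∧ ∃ l, lev s (q l) < lev s (q 0)) p) fun p _ a => ?_).trans
    (add_le_add (attempts hd (rho_zero (β := β) s ▸ hr 0) (stay_dep s J)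
      (fun y V hV => (hr J).trans (rec_stay hd hβ hV J)) k 1 n 0 _ (h0 1 one_pos)) ?_)
  · obtain ⟨t, u, h1, h2, h3⟩ := a
    by_contra hc
    rw [not_or] at hc
    refine hc.1 ⟨⟨t, h2⟩, fun j hj ⟨v, b1, b2, b3⟩ => hc.2 ⟨j, mem_range.2 hj, v, b1, b2, b3,
      u - v, ?_⟩⟩
    have c1 : (j : ℤ) * (J + 1) ≤ k * (J + 1) := by gcongr
    have c2 : (0 : ℤ) ≤ j * (J + 1) := by positivity
    have c3 : v ≤ t := by
      by_contra e
      have := b1 t (by omega)
      omega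
    simp only [Nat.sub_add_cancel (c3.trans h1), zero_add]
    omega
  · refine (pr_union (range k) _ _ (fun _ _ a => a) (c := 2 * d * ε) fun j _ => ?_).trans
      (by rw [card_range])
    refine hit_le hd (by positivity) (fun m y V hV => ?_) (h0 _ (by positivity))
    have key : ∀ p, Path m y p → (∃ l, lev s (p l) < lev s (p 0)) →
        ∃ l, 1 ≤ l ∧ l ≤ m ∧ lev s (p l) < lev s (p 0) := by
      rintro p hp ⟨l, hl⟩
      rcases le_total l m with e | e
      · exact ⟨l, Nat.pos_of_ne_zero fun c => by rw [c] at hl; omega, e, hl⟩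
      · rw [hp.2.2 l e] at hl
        exact ⟨m, Nat.pos_of_ne_zero fun c => by rw [c] at hl; omega, le_rfl, hl⟩
    rcases le_total m J with e | e
    · refine (pr_empty V fun p hp a => ?_).trans_le (by positivity)
      obtain ⟨l, b1, b2, b3⟩ := key p hp a.2
      have := a.1 l b1 (b2.trans e)
      omega
    · obtain ⟨c, c1, c2, c3⟩ := rec_cmp hd hβ hV
      have b1 := pr_split (β := β) m y V (Stay s J) (Stay s m)
      have b2 : pr β m y V (fun p => Stay s J p ∧ Stay s m p) = pr β m y V (Stay s m) :=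
        pr_congr V fun p _ => ⟨fun a => a.2, fun a => ⟨fun l h1 h2 => a l h1 (h2.trans e), a⟩⟩
      rw [b2, pr_trunc' hd e _ _ (stay_dep s J), c3 J _ hJ1 fun _ _ a => a,
        c3 m _ (hJ1.trans e) fun _ _ a => a, fresh_stay hd s le_rfl, fresh_stay hd s le_rfl] at b1
      refine (pr_mono V (F := fun p => Stay s J p ∧ ¬Stay s m p) fun p hp a => ⟨a.1, fun b => ?_⟩
        ).trans ?_
      · obtain ⟨l, b1, b2, b3⟩ := key p hp a.2
        have := b l b1 b2
        omega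
      · have := hr m
        nlinarith

lemma cross (hd : 0 < d) (hβ : 0 ≤ β) {s : St d} {i : Fin d} (hi : s.1 ≠ i) {r : ℝ} {N n m : ℕ}
    (hr : r ≤ rho β s m) (hn : pr β m 0 (dl 0) (Strip i N n) ≤ r / 2) (hm : 1 ≤ m) {y : Pt d}
    {V : Pt d → ℕ} (hV : Rec s y V) (b : Bool) :
    r / 4 ≤ pr β m y V fun q => ∃ t, lev (i, b) (q 0) + N < lev (i, b) (q t) := by
  obtain ⟨c, c1, -, c3⟩ := rec_cmp hd hβ hV
  obtain ⟨U, hU⟩ : ∃ U : Bool → (ℕ → Pt d) → Prop,
      U = fun b q => Stay s m q ∧ ∃ t, lev (i, b) (q 0) + N < lev (i, b) (q t) := ⟨_, rfl⟩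
  have h1 : pr β m 0 (dl 0) (U !b) = pr β m 0 (dl 0) (U b) := by
    rw [pr_refl i, hU]
    simp only [Stay, lev_refl, reflS, if_neg hi, if_true, Bool.not_not]
  have h2 : pr β m y (dl y) (U b) = pr β m 0 (dl 0) (U b) := by
    rw [pr_shift, hU]
    simp only [Stay, lev_add, add_lt_add_iff_right, add_right_comm _ (lev (i, b) y)]
  have h3 := pr_or (β := β) (n := m) (x := (0 : Pt d)) (dl 0) (E := Stay s m) (Strip i N n)
    (fun p => U b p ∨ U (!b) p) fun p hp a => by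
      by_contra hc
      rw [hU] at hc
      simp only [not_or, not_and, not_exists, not_lt] at hc
      refine hc.1 fun k _ e => ?_
      have e1 := hc.2.1 a k
      have e2 := hc.2.2 a k
      rw [hp.1, lev_zero, zero_add] at e1 e2
      cases b <;> cases e <;> assumption
  have h4 := pr_or (β := β) (n := m) (x := (0 : Pt d)) (dl 0) (E := fun p => U b p ∨ U (!b) p)
    (U b) (U !b) fun _ _ a => a
  have h5 := c3 m (U b) hm fun p _ a => by rw [hU] at a; exact a.1
  have h6 := pr_nonneg (β := β) m 0 (dl 0) (U b)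
  refine le_trans ?_ (pr_mono V (E := U b) fun p _ a => by rw [hU] at a; exact a.2)
  rw [rho] at hr
  rw [h5, h2]
  nlinarith

theorem rho_small (hd : 2 ≤ d) (hβ : 0 ≤ β) {η : ℝ} (hη : 0 < η) :
    ∃ J, 1 ≤ J ∧ ∀ s : St d, rho β s J ≤ η := by
  have hd0 : 0 < d := by omega
  have hd' : (0 : ℝ) < d := by exact_mod_cast hd0
  obtain ⟨i, j, hij⟩ : ∃ i j : Fin d, i ≠ j := ⟨⟨0, hd0⟩, ⟨1, hd⟩, by simp⟩
  by_contra hc
  push Not at hc
  have hb : BddBelow (Set.range (rho β (i, true))) :=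
    ⟨0, fun _ ⟨J, e⟩ => e ▸ pr_nonneg _ _ _ _⟩
  obtain ⟨r, hr⟩ : ∃ r, r = ⨅ J, rho β (i, true) J := ⟨_, rfl⟩
  have r0 : 0 < r := hη.trans_le (hr ▸ le_ciInf fun J => by
    obtain ⟨s, hs⟩ := hc (J + 1) (by omega)
    exact hs.le.trans ((rho_sym s _ _).le.trans (rho_anti hd0 _ (Nat.le_succ J))))
  have r1 : ∀ (s : St d) m, r ≤ rho β s m := fun s m =>
    hr ▸ (ciInf_le hb m).trans (rho_sym _ _ _).le
  obtain ⟨k, hk⟩ := exists_pow r0 (show 0 < r / 128 by positivity)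
  obtain ⟨ε, hε⟩ : ∃ ε, ε = r / 128 / ((k + 1) * (2 * d)) := ⟨_, rfl⟩
  have e0 : 0 < ε := by rw [hε]; positivity
  have e1 : (k + 1) * (2 * d * ε) = r / 128 := by rw [hε]; field_simp
  obtain ⟨J, hJ⟩ := exists_lt_of_ciInf_lt (show ⨅ J, rho β (i, true) J < r + ε by linarith)
  have hB : ∀ (s : St d) n, pr β n 0 (dl 0) (Back s (1 + k * ((J + 1 : ℕ) + 1))) ≤ r / 64 :=
    fun s n => (noback hd0 hβ s (r1 s) (ε := ε) (by omega) ((rho_sym s _ _).le.trans
      ((rho_anti hd0 _ (Nat.le_succ J)).trans hJ.le)) k n).trans (by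
        have : 0 < 2 * d * ε := by positivity
        nlinarith)
  obtain ⟨n1, h1⟩ := strip hd0 hβ j (k * (J + 1 + 1)) (show 0 < r / 64 by positivity)
  obtain ⟨n2, h2⟩ := strip hd0 hβ i n1 (show (0 : ℝ) < 1 / 2 by norm_num)
  obtain ⟨n3, h3⟩ := strip hd0 hβ j n2 (show 0 < r / 2 by positivity)
  obtain ⟨n, hn⟩ : ∃ n, n = n1 + n2 + n3 + 1 := ⟨_, rfl⟩
  obtain ⟨A, hA⟩ : ∃ A : (ℕ → Pt d) → Prop,
      A = fun q => (∀ b, lev (j, b) (q 0) ≤ n2) ∧ q n3 ≠ q (n3 + 1) := ⟨_, rfl⟩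
  obtain ⟨C, hC⟩ : ∃ C : (ℕ → Pt d) → Prop,
      C = fun q => ∀ b, ∃ t, lev (j, b) (q t) ≤ 0 := ⟨_, rfl⟩
  have k1 : ∀ b, r / 4 * pr β n 0 (dl 0) (Hit (i, b) (n1 + 1) A) ≤
      pr β n 0 (dl 0) (Hit (i, b) (n1 + 1) C) := fun b => by
    refine hit_cmp hd0 (by positivity) (fun m y V hV => ?_) (below_dl (by rw [lev_zero]; omega))
    by_cases a : (∀ b, lev (j, b) y ≤ n2) ∧ n3 < m
    · obtain ⟨c, hc⟩ : ∃ c, lev (j, c) y ≤ 0 := by
        rcases le_total (lev (j, true) y) 0 with e | e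
        · exact ⟨true, e⟩
        · exact ⟨false, by have := lev_not j true y; simp only [Bool.not_true] at this; omega⟩
      refine (mul_le_of_le_one_right (by positivity) (pr_le_one hd0 _ _ _ _)).trans
        ((cross hd0 hβ (s := (i, b)) hij (r1 _ m) (h3 m a.2.le) (by omega) hV c).trans
          (pr_mono V fun p hp ⟨t, ht⟩ => ?_))
      rw [hC]
      intro e
      by_cases f : e = c
      · exact ⟨0, by rw [hp.1, f]; exact hc⟩
      · have g1 := a.1 (!c)
        have g2 := lev_not j c (p t)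
        rw [lev_not] at g1
        rw [hp.1] at ht
        exact ⟨t, by rw [Bool.eq_not_of_ne f]; omega⟩
    · rw [pr_empty V fun p hp e => a ?_, mul_zero]
      · exact pr_nonneg _ _ _ _
      · rw [hA] at e
        refine ⟨hp.1 ▸ e.1, not_le.1 fun f => e.2 ?_⟩
        rw [hp.2.2 _ f, hp.2.2 (n3 + 1) (by omega)]
  have k2 : ∀ b, pr β n 0 (dl 0) (Hit (i, b) (n1 + 1) C) ≤ r / 64 + (r / 64 + r / 64) := by
    intro b
    refine (pr_or _ (Strip j (k * (J + 1 + 1)) n1) (fun p => Back (j, true) _ p ∨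
      Back (j, false) _ p) fun p hp ⟨t, a1, a2, a3⟩ => ?_).trans (add_le_add (h1 n (by omega))
      ((pr_or _ _ _ fun _ _ a => a).trans (add_le_add (hB _ n) (hB _ n))))
    rw [or_iff_not_imp_left]
    intro a4
    simp only [Strip, not_forall, not_le] at a4
    obtain ⟨u, hu, c, a4⟩ := a4
    rw [hC] at a3
    obtain ⟨v, hv⟩ := a3 c
    have a5 := (hp.lip (i, b) (Nat.zero_le t)).1
    rw [hp.1, lev_zero] at a5
    have : Back (j, c) (1 + k * ((J + 1 : ℕ) + 1)) p :=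
      ⟨u, v + t, by omega, by push_cast at a4 ⊢; omega, hv⟩
    cases c
    exacts [Or.inr this, Or.inl this]
  have k3 : pr β n (0 : Pt d) (dl 0) (fun _ => True) ≤ 1 / 2 +
      (pr β n 0 (dl 0) (Hit (i, true) (n1 + 1) A) +
        pr β n 0 (dl 0) (Hit (i, false) (n1 + 1) A)) := by
    refine (pr_or _ (Strip i n1 n2) (fun p => Hit (i, true) (n1 + 1) A p ∨
      Hit (i, false) (n1 + 1) A p) fun p hp _ => ?_).trans (add_le_add (h2 n (by omega))
      (pr_or _ _ _ fun _ _ a => a))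
    rw [or_iff_not_imp_left]
    intro a4
    simp only [Strip, not_forall, not_le] at a4
    obtain ⟨u, hu, c, a4⟩ := a4
    have ex : ∃ t, (n1 : ℤ) + 1 ≤ lev (i, c) (p t) := ⟨u, a4⟩
    have a5 : Nat.find ex ≤ u := Nat.find_min' ex a4
    have : Hit (i, c) (n1 + 1) A p := by
      refine ⟨Nat.find ex, fun l hl => not_le.1 (Nat.find_min ex hl), Nat.find_spec ex, ?_⟩
      rw [hA]
      refine ⟨fun e => ?_, fun e => ?_⟩
      · have := (hp.lip (j, e) (Nat.zero_le (0 + Nat.find ex))).1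
        rw [hp.1, lev_zero] at this
        beta_reduce
        omega
      · obtain ⟨w, hw⟩ := hp.2.1 (n3 + Nat.find ex) (by omega)
        beta_reduce at e
        rw [add_right_comm, hw] at e
        exact step_ne w (by simpa using e)
    cases c
    exacts [Or.inr this, Or.inl this]
  rw [pr_sure hd0 _ fun _ _ => trivial] at k3
  nlinarith [k1 true, k1 false, k2 true, k2 false]

end Pool.Agent.Lib.MP_aa337a_pr.Sb
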