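import Pool.Agent.Lib.MP_aa337a_pr.Box

/-! The walk started from a position and a profile of earlier visits. -/

set_option autoImplicit false

namespace Pool.Agent.Lib.MP_aa337a_pr.Sb

open Finset

/-- Lattice points. -/
abbrev Pt (d : ℕ) : Type := Fin d → ℤ

/-- Directions. -/
abbrev St (d : ℕ) : Type := Fin d × Bool

variable {β : ℝ} {d : ℕ}

/-- One more visit. -/
def add1 (V : Pt d → ℕ) (y : Pt d) : Pt d → ℕ := fun z => V z + if y = z then 1 else 0

/-- The profile of a walk that has just started. -/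
def dl (y : Pt d) : Pt d → ℕ := add1 (fun _ => 0) y

/-- The normalising sum. -/
noncomputable def zz (β : ℝ) (x : Pt d) (V : Pt d → ℕ) : ℝ :=
  ∑ s : St d, Real.exp (-β * (V (x + step s) : ℝ))

/-- The transition probability. -/
noncomputable def tr (β : ℝ) (x : Pt d) (V : Pt d → ℕ) (s : St d) : ℝ :=
  Real.exp (-β * (V (x + step s) : ℝ)) / zz β x V

/-- A point put in front of a path. -/
def cons (x : Pt d) (p : ℕ → Pt d) : ℕ → Pt d
  | 0 => x
  | k + 1 => p k

/-- Expectation over the next `n` steps; the path is frozen afterwards. -/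
noncomputable def fx (β : ℝ) : ℕ → Pt d → (Pt d → ℕ) → ((ℕ → Pt d) → ℝ) → ℝ
  | 0, x, _, g => g fun _ => x
  | n + 1, x, V, g =>
      ∑ s, tr β x V s * fx β n (x + step s) (add1 V (x + step s)) fun p => g (cons x p)

open Classical in
/-- The indicator of a proposition. -/
noncomputable def ind (P : Prop) : ℝ := if P then 1 else 0

/-- Probability of an event. -/
noncomputable def pr (β : ℝ) (n : ℕ) (x : Pt d) (V : Pt d → ℕ) (E : (ℕ → Pt d) → Prop) : ℝ :=
  fx β n x V fun p => ind (E p)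

/-- Nearest neighbour paths frozen after time `n`. -/
def Path (n : ℕ) (x : Pt d) (p : ℕ → Pt d) : Prop :=
  p 0 = x ∧ (∀ k < n, ∃ s, p (k + 1) = p k + step s) ∧ ∀ k, n ≤ k → p k = p n

/-- The level of a point in a direction. -/
def lev (s : St d) (x : Pt d) : ℤ := if s.2 then x s.1 else -x s.1

@[simp] lemma cons_zero (x : Pt d) (p : ℕ → Pt d) : cons x p 0 = x := rfl

@[simp] lemma cons_succ (x : Pt d) (p : ℕ → Pt d) (k : ℕ) : cons x p (k + 1) = p k := rfl

lemma ind_of {P : Prop} (h : P) : ind P = 1 := if_pos h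

lemma ind_not {P : Prop} (h : ¬P) : ind P = 0 := if_neg h

lemma ind_nonneg (P : Prop) : 0 ≤ ind P := by
  by_cases h : P
  · rw [ind_of h]; exact zero_le_one
  · rw [ind_not h]

lemma ind_mono {P Q : Prop} (h : P → Q) : ind P ≤ ind Q := by
  by_cases a : P
  · rw [ind_of a, ind_of (h a)]
  · rw [ind_not a]; exact ind_nonneg _

lemma lev_add (s : St d) (x y : Pt d) : lev s (x + y) = lev s x + lev s y := by
  unfold lev
  split_ifs
  · rfl
  · simp [add_comm]

lemma lev_zero (s : St d) : lev s (0 : Pt d) = 0 := by simp [lev]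

lemma lev_step_self (s : St d) : lev s (step s) = 1 := by
  obtain ⟨i, _ | _⟩ := s <;> simp [lev, step]

lemma lev_step_ne {s t : St d} (h : s.1 ≠ t.1) : lev s (step t) = 0 := by
  obtain ⟨i, _ | _⟩ := s <;> obtain ⟨j, _ | _⟩ := t <;> simp [lev, step, Pi.single_apply] <;>
    exact h

lemma lev_step (s t : St d) : -1 ≤ lev s (step t) ∧ lev s (step t) ≤ 1 := by
  obtain ⟨i, _ | _⟩ := s <;> obtain ⟨j, _ | _⟩ := t <;> simp only [lev, step] <;>
    simp [Pi.single_apply] <;> split_ifs <;> simp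

lemma path_const (x : Pt d) : Path 0 x fun _ => x := ⟨rfl, fun _ h => absurd h (by omega),
  fun _ _ => rfl⟩

lemma path_cons {n : ℕ} {x : Pt d} {s : St d} {p : ℕ → Pt d} (h : Path n (x + step s) p) :
    Path (n + 1) x (cons x p) := by
  refine ⟨rfl, fun k hk => ?_, fun k hk => ?_⟩
  · rcases k with _ | k
    · exact ⟨s, h.1⟩
    · exact h.2.1 k (by omega)
  · obtain ⟨k, rfl⟩ : ∃ j, k = j + 1 := ⟨k - 1, by omega⟩
    exact h.2.2 k (by omega)

lemma Path.one {n : ℕ} {x : Pt d} {p : ℕ → Pt d} (h : Path n x p) (s : St d) (k : ℕ) :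
    lev s (p (k + 1)) ≤ lev s (p k) + 1 ∧ lev s (p k) ≤ lev s (p (k + 1)) + 1 := by
  by_cases hk : k < n
  · obtain ⟨t, ht⟩ := h.2.1 k hk
    have := lev_step s t
    rw [ht, lev_add]
    omega
  · rw [h.2.2 k (by omega), h.2.2 (k + 1) (by omega)]
    omega

lemma Path.lip {n : ℕ} {x : Pt d} {p : ℕ → Pt d} (h : Path n x p) (s : St d) {a b : ℕ}
    (hab : a ≤ b) :
    lev s (p b) + a ≤ lev s (p a) + b ∧ lev s (p a) + a ≤ lev s (p b) + b := by
  induction b, hab using Nat.le_induction with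
  | base => omega
  | succ b _ ih =>
    have := h.one s b
    push_cast
    omega

lemma Path.bound {n : ℕ} {x : Pt d} {p : ℕ → Pt d} (h : Path n x p) (s : St d) (k : ℕ) :
    lev s (p k) ≤ lev s x + n := by
  rcases le_total k n with a | a
  · have := (h.lip s (Nat.zero_le k)).1
    rw [h.1] at this
    omega
  · have := (h.lip s (Nat.zero_le n)).1
    rw [h.1] at this
    rw [h.2.2 k a]
    omega

lemma zz_pos (hd : 0 < d) (x : Pt d) (V : Pt d → ℕ) : 0 < zz β x V :=
  sum_pos (fun _ _ => Real.exp_pos _) ⟨(⟨0, hd⟩, true), mem_univ _⟩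

lemma zz_le (hβ : 0 ≤ β) (x : Pt d) (V : Pt d → ℕ) : zz β x V ≤ 2 * d := by
  have : zz β x V ≤ ∑ _s : St d, (1 : ℝ) := sum_le_sum fun s _ =>
    Real.exp_le_one_iff.2 (by
      have : 0 ≤ β * (V (x + step s) : ℝ) := by positivity
      linarith)
  simpa [mul_comm] using this

lemma le_zz (x : Pt d) (V : Pt d → ℕ) (s : St d) :
    Real.exp (-β * (V (x + step s) : ℝ)) ≤ zz β x V :=
  single_le_sum (f := fun s : St d => Real.exp (-β * (V (x + step s) : ℝ)))
    (fun _ _ => (Real.exp_pos _).le) (mem_univ s)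

lemma tr_nonneg (x : Pt d) (V : Pt d → ℕ) (s : St d) : 0 ≤ tr β x V s :=
  div_nonneg (Real.exp_pos _).le (sum_nonneg fun _ _ => (Real.exp_pos _).le)

lemma sum_tr (hd : 0 < d) (x : Pt d) (V : Pt d → ℕ) : ∑ s, tr β x V s = 1 := by
  unfold tr
  rw [← sum_div]
  exact div_self (zz_pos hd x V).ne'

lemma fx_mono : ∀ (n : ℕ) (x : Pt d) (V : Pt d → ℕ) {g g' : (ℕ → Pt d) → ℝ},
    (∀ p, Path n x p → g p ≤ g' p) → fx β n x V g ≤ fx β n x V g'
  | 0, x, _, _, _, h => h _ (path_const x)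
  | n + 1, x, V, _, _, h => sum_le_sum fun s _ => mul_le_mul_of_nonneg_left
      (fx_mono n _ _ fun _ hp => h _ (path_cons hp)) (tr_nonneg x V s)

lemma fx_congr {n : ℕ} {x : Pt d} (V : Pt d → ℕ) {g g' : (ℕ → Pt d) → ℝ}
    (h : ∀ p, Path n x p → g p = g' p) : fx β n x V g = fx β n x V g' :=
  le_antisymm (fx_mono n x V fun p hp => (h p hp).le) (fx_mono n x V fun p hp => (h p hp).ge)

lemma fx_lin (a b : ℝ) : ∀ (n : ℕ) (x : Pt d) (V : Pt d → ℕ) (g g' : (ℕ → Pt d) → ℝ),
    fx β n x V (fun p => a * g p + b * g' p) = a * fx β n x V g + b * fx β n x V g'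
  | 0, _, _, _, _ => rfl
  | n + 1, x, V, g, g' => by
    simp only [fx, fx_lin a b n, mul_sum, ← sum_add_distrib]
    exact sum_congr rfl fun s _ => by ring

lemma fx_add (n : ℕ) (x : Pt d) (V : Pt d → ℕ) (g g' : (ℕ → Pt d) → ℝ) :
    fx β n x V (fun p => g p + g' p) = fx β n x V g + fx β n x V g' := by
  simpa using fx_lin (β := β) 1 1 n x V g g'

lemma fx_mul (a : ℝ) (n : ℕ) (x : Pt d) (V : Pt d → ℕ) (g : (ℕ → Pt d) → ℝ) :
    fx β n x V (fun p => a * g p) = a * fx β n x V g := by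
  simpa using fx_lin (β := β) a 0 n x V g g

lemma fx_zero (n : ℕ) (x : Pt d) (V : Pt d → ℕ) : fx β n x V (fun _ => 0) = 0 := by
  simpa using fx_mul (β := β) 0 n x V fun _ => 0

lemma fx_sum {ι : Type} (S : Finset ι) (n : ℕ) (x : Pt d) (V : Pt d → ℕ)
    (g : ι → (ℕ → Pt d) → ℝ) :
    fx β n x V (fun p => ∑ i ∈ S, g i p) = ∑ i ∈ S, fx β n x V (g i) := by
  classical
  induction S using Finset.induction_on with
  | empty => simpa using fx_zero n x V
  | insert a S ha ih => simp only [sum_insert ha, fx_add, ih]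

lemma fx_const (hd : 0 < d) (c : ℝ) : ∀ (n : ℕ) (x : Pt d) (V : Pt d → ℕ),
    fx β n x V (fun _ => c) = c
  | 0, _, _ => rfl
  | n + 1, x, V => by simp only [fx, fx_const hd c n, ← sum_mul, sum_tr hd, one_mul]

lemma pr_succ (n : ℕ) (x : Pt d) (V : Pt d → ℕ) (E : (ℕ → Pt d) → Prop) :
    pr β (n + 1) x V E =
      ∑ s, tr β x V s * pr β n (x + step s) (add1 V (x + step s)) fun p => E (cons x p) := rfl

lemma pr_zero (x : Pt d) (V : Pt d → ℕ) (E : (ℕ → Pt d) → Prop) :
    pr β 0 x V E = ind (E fun _ => x) := rfl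

lemma pr_mono {n : ℕ} {x : Pt d} (V : Pt d → ℕ) {E F : (ℕ → Pt d) → Prop}
    (h : ∀ p, Path n x p → E p → F p) : pr β n x V E ≤ pr β n x V F :=
  fx_mono n x V fun p hp => ind_mono (h p hp)

lemma pr_congr {n : ℕ} {x : Pt d} (V : Pt d → ℕ) {E F : (ℕ → Pt d) → Prop}
    (h : ∀ p, Path n x p → (E p ↔ F p)) : pr β n x V E = pr β n x V F :=
  le_antisymm (pr_mono V fun p hp => (h p hp).1) (pr_mono V fun p hp => (h p hp).2)

lemma pr_empty {n : ℕ} {x : Pt d} (V : Pt d → ℕ) {E : (ℕ → Pt d) → Prop}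
    (h : ∀ p, Path n x p → ¬E p) : pr β n x V E = 0 :=
  (fx_congr V fun p hp => ind_not (h p hp)).trans (fx_zero n x V)

lemma pr_nonneg (n : ℕ) (x : Pt d) (V : Pt d → ℕ) (E : (ℕ → Pt d) → Prop) : 0 ≤ pr β n x V E :=
  (fx_zero n x V).ge.trans (fx_mono n x V fun _ _ => ind_nonneg _)

lemma pr_sure (hd : 0 < d) {n : ℕ} {x : Pt d} (V : Pt d → ℕ) {E : (ℕ → Pt d) → Prop}
    (h : ∀ p, Path n x p → E p) : pr β n x V E = 1 :=
  (fx_congr V fun p hp => ind_of (h p hp)).trans (fx_const hd 1 n x V)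

lemma pr_le_one (hd : 0 < d) (n : ℕ) (x : Pt d) (V : Pt d → ℕ) (E : (ℕ → Pt d) → Prop) :
    pr β n x V E ≤ 1 :=
  (pr_mono V fun _ _ _ => trivial).trans (pr_sure hd V fun _ _ => trivial).le

lemma pr_split (n : ℕ) (x : Pt d) (V : Pt d → ℕ) (E F : (ℕ → Pt d) → Prop) :
    pr β n x V E = pr β n x V (fun p => E p ∧ F p) + pr β n x V fun p => E p ∧ ¬F p := by
  rw [pr, pr, pr, ← fx_add]
  refine fx_congr V fun p _ => ?_
  by_cases a : E p <;> by_cases b : F p <;> simp [ind, a, b]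

lemma pr_or {n : ℕ} {x : Pt d} (V : Pt d → ℕ) {E : (ℕ → Pt d) → Prop} (F G : (ℕ → Pt d) → Prop)
    (h : ∀ p, Path n x p → E p → F p ∨ G p) : pr β n x V E ≤ pr β n x V F + pr β n x V G := by
  rw [pr_split n x V E F]
  exact add_le_add (pr_mono V fun _ _ a => a.2) (pr_mono V fun p hp a =>
    (h p hp a.1).resolve_left a.2)

lemma pr_count {ι : Type} (S : Finset ι) {n : ℕ} {x : Pt d} (V : Pt d → ℕ)
    {E : (ℕ → Pt d) → Prop} (F : ι → (ℕ → Pt d) → Prop) (a : ℝ)
    (h : ∀ p, Path n x p → E p → a ≤ ∑ i ∈ S, ind (F i p)) :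
    a * pr β n x V E ≤ ∑ i ∈ S, pr β n x V (F i) := by
  unfold pr
  rw [← fx_mul, ← fx_sum]
  refine fx_mono n x V fun p hp => ?_
  by_cases b : E p
  · rw [ind_of b, mul_one]
    exact h p hp b
  · rw [ind_not b, mul_zero]
    exact sum_nonneg fun _ _ => ind_nonneg _

lemma pr_union {ι : Type} (S : Finset ι) {n : ℕ} {x : Pt d} (V : Pt d → ℕ)
    {E : (ℕ → Pt d) → Prop} (F : ι → (ℕ → Pt d) → Prop) {c : ℝ}
    (h : ∀ p, Path n x p → E p → ∃ i ∈ S, F i p) (hc : ∀ i ∈ S, pr β n x V (F i) ≤ c) :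
    pr β n x V E ≤ S.card * c := by
  have := pr_count (β := β) S V F 1 fun p hp a => by
    obtain ⟨i, hi, b⟩ := h p hp a
    exact (ind_of b).ge.trans (single_le_sum (f := fun i => ind (F i p))
      (fun _ _ => ind_nonneg _) hi)
  rw [one_mul] at this
  exact this.trans ((sum_le_card_nsmul _ _ _ hc).trans (nsmul_eq_mul _ _).le)

/-- The event depends on the first `a` steps only. -/
def Dep (a : ℕ) (E : (ℕ → Pt d) → Prop) : Prop := ∀ p q, (∀ k ≤ a, p k = q k) → E p → E q

lemma Dep.cons {a : ℕ} {E : (ℕ → Pt d) → Prop} (h : Dep (a + 1) E) (x : Pt d) :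
    Dep a fun p => E (cons x p) := fun _ _ e => h _ _ fun k hk => by
  rcases k with _ | k
  · rfl
  · exact e k (by omega)

lemma Dep.not {a : ℕ} {E : (ℕ → Pt d) → Prop} (h : Dep a E) : Dep a fun p => ¬E p :=
  fun p q e a b => a (h q p (fun k hk => (e k hk).symm) b)

lemma pr_trunc (hd : 0 < d) (b : ℕ) : ∀ (a : ℕ) (x : Pt d) (V : Pt d → ℕ)
    {E : (ℕ → Pt d) → Prop}, Dep a E → pr β (b + a) x V E = pr β a x V E
  | 0, x, V, E, h => by
    by_cases c : E fun _ => x
    · rw [pr_zero, ind_of c]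
      exact pr_sure hd V fun p hp => h _ _ (fun k hk => by
        rw [Nat.le_zero.1 hk, hp.1]) c
    · rw [pr_zero, ind_not c]
      exact pr_empty V fun p hp e => c (h _ _ (fun k hk => by
        rw [Nat.le_zero.1 hk, hp.1]) e)
  | a + 1, x, V, E, h => by
    rw [← add_assoc, pr_succ, pr_succ]
    exact sum_congr rfl fun s _ => by rw [pr_trunc hd b a _ _ (h.cons x)]

lemma pr_trunc' (hd : 0 < d) {a n : ℕ} (han : a ≤ n) (x : Pt d) (V : Pt d → ℕ)
    {E : (ℕ → Pt d) → Prop} (h : Dep a E) : pr β n x V E = pr β a x V E := by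
  rw [← pr_trunc hd (n - a) a x V h, Nat.sub_add_cancel han]

lemma link (f : Pt d → ℝ) : ∀ n m : ℕ,
    expect β d n (fun x w => fx β m x (fun y => w.count y) fun p => f (p m)) =
      fx β (m + n) 0 (dl 0) fun p => f (p (m + n))
  | 0, m => by
    have : (fun y : Pt d => List.count y [0]) = dl 0 := funext fun y => by
      simp [dl, add1, List.count_cons]
    simp only [expect, this, Nat.add_zero]
  | n + 1, m => by
    rw [← add_assoc, add_right_comm, ← link f n (m + 1)]
    have : ∀ (w : List (Pt d)) (z : Pt d), (fun y => List.count y (z :: w)) =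
        add1 (fun y => w.count y) z := fun w z => funext fun y => by
      simp [add1, List.count_cons]
    simp only [expect, this]
    rfl

lemma link' (f : Pt d → ℝ) (n : ℕ) :
    expect β d n (fun x _ => f x) = fx β n 0 (dl 0) fun p => f (p n) := by
  simpa [fx] using link (β := β) f n 0

lemma fx_sym {φ : Pt d → Pt d} (hφ : Function.Injective φ) (π : Equiv.Perm (St d))
    (h : ∀ x s, φ (x + step s) = φ x + step (π s)) :
    ∀ (n : ℕ) (x : Pt d) (V : Pt d → ℕ) (g : (ℕ → Pt d) → ℝ),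
      fx β n (φ x) V g = fx β n x (fun y => V (φ y)) fun p => g fun k => φ (p k)
  | 0, _, _, _ => rfl
  | n + 1, x, V, g => by
    have hz : zz β (φ x) V = zz β x fun y => V (φ y) := by
      simp only [zz, h]
      exact (Equiv.sum_comp π fun s => Real.exp (-β * (V (φ x + step s) : ℝ))).symm
    simp only [fx]
    rw [← Equiv.sum_comp π]
    refine sum_congr rfl fun s _ => ?_
    have e1 : (fun y => add1 V (φ (x + step s)) (φ y)) = add1 (fun y => V (φ y)) (x + step s) :=
      funext fun y => by simp [add1, hφ.eq_iff]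
    have e2 : ∀ p : ℕ → Pt d, (cons (φ x) fun k => φ (p k)) = fun k => φ (cons x p k) :=
      fun p => funext fun k => by cases k <;> rfl
    rw [tr, tr, hz, ← h, fx_sym hφ π h n, e1]
    simp only [e2]

lemma pr_sym {φ : Pt d → Pt d} (hφ : Function.Injective φ) (π : Equiv.Perm (St d))
    (h : ∀ x s, φ (x + step s) = φ x + step (π s)) (n : ℕ) (x : Pt d) (E : (ℕ → Pt d) → Prop) :
    pr β n (φ x) (dl (φ x)) E = pr β n x (dl x) fun p => E fun k => φ (p k) := by
  have : (fun y => dl (φ x) (φ y)) = dl x := funext fun y => by simp [dl, add1, hφ.eq_iff]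
  rw [pr, fx_sym hφ π h, this, pr]

lemma pr_loc (s : St d) (h : ℤ) : ∀ (n : ℕ) (x : Pt d) (V W : Pt d → ℕ)
    (E : (ℕ → Pt d) → Prop), (∀ y, h ≤ lev s y → V y = W y) →
    (∀ p, Path n x p → E p → ∀ k < n, h < lev s (p k)) → pr β n x V E = pr β n x W E
  | 0, _, _, _, _, _, _ => rfl
  | n + 1, x, V, W, E, e, hE => by
    by_cases hx : h < lev s x
    · have e1 : ∀ t, V (x + step t) = W (x + step t) := fun t => e _ (by
        have := lev_step s t
        rw [lev_add]
        omega)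
      rw [pr_succ, pr_succ]
      refine sum_congr rfl fun t _ => ?_
      rw [pr_loc s h n _ _ (add1 W (x + step t)) _ (fun y hy => by simp only [add1, e y hy])
        fun p hp a k hk => hE _ (path_cons hp) a (k + 1) (by omega)]
      simp only [tr, zz, e1]
    · have : ∀ p, Path (n + 1) x p → ¬E p := fun p hp a =>
        hx (hp.1 ▸ hE p hp a 0 (by omega))
      rw [pr_empty V this, pr_empty W this]

/-- The path stays strictly above its first level during `J` steps. -/
def Stay (s : St d) (J : ℕ) (p : ℕ → Pt d) : Prop :=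
  ∀ k, 1 ≤ k → k ≤ J → lev s (p 0) < lev s (p k)

lemma pr_rec (hd : 0 < d) (s : St d) {n : ℕ} (hn : 1 ≤ n) (x : Pt d) {V W : Pt d → ℕ}
    {E : (ℕ → Pt d) → Prop} (e : ∀ y, lev s x ≤ lev s y → V y = W y)
    (hE : ∀ p, Path n x p → E p → Stay s n p) :
    pr β n x V E * zz β x V = pr β n x W E * zz β x W := by
  obtain ⟨n, rfl⟩ : ∃ m, n = m + 1 := ⟨n - 1, by omega⟩
  rw [pr_succ, pr_succ, sum_mul, sum_mul]
  refine sum_congr rfl fun t _ => ?_
  rw [mul_right_comm, mul_right_comm (tr β x W t), tr, tr, div_mul_cancel₀ _ (zz_pos hd _ _).ne',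
    div_mul_cancel₀ _ (zz_pos hd _ _).ne']
  by_cases ht : lev s x < lev s (x + step t)
  · rw [e _ ht.le, pr_loc s (lev s x) n _ _ (add1 W (x + step t)) _
      (fun y hy => by simp only [add1, e y hy])
      fun p hp a k hk => hE _ (path_cons hp) a (k + 1) (by omega) (by omega)]
  · have : ∀ p, Path n (x + step t) p → ¬E (cons x p) := fun p hp a =>
      ht (hp.1 ▸ hE _ (path_cons hp) a 1 le_rfl (by omega))
    rw [pr_empty _ this, pr_empty _ this, mul_zero, mul_zero]

end Pool.Agent.Lib.MP_aa337a_pr.Sb
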