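import Pool.Agent.Lib.MP_aa337a_pr.Sb.Basic

/-! Records of a level, repeated attempts, and symmetry. -/

set_option autoImplicit false

namespace Pool.Agent.Lib.MP_aa337a_pr.Sb

open Finset

variable {β : ℝ} {d : ℕ}

/-- The walk stands at a new record of its level. -/
def Rec (s : St d) (y : Pt d) (V : Pt d → ℕ) : Prop := ∀ z, lev s y ≤ lev s z → V z = dl y z

/-- The level `h` has not been reached yet. -/
def Below (s : St d) (h : ℤ) (x : Pt d) (V : Pt d → ℕ) : Prop :=
  lev s x < h ∧ ∀ y, h ≤ lev s y → V y = 0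

/-- The event `E` holds for the path seen from the first time at level `h`. -/
def Hit (s : St d) (h : ℤ) (E : (ℕ → Pt d) → Prop) (p : ℕ → Pt d) : Prop :=
  ∃ t, (∀ k < t, lev s (p k) < h) ∧ h ≤ lev s (p t) ∧ E fun k => p (k + t)

lemma dl_ne {y z : Pt d} (h : y ≠ z) : dl y z = 0 := by simp [dl, add1, h]

lemma dl_lt {s : St d} {y z : Pt d} (h : lev s y < lev s z) : dl y z = 0 :=
  dl_ne fun e => by rw [e] at h; omega

lemma below_dl {s : St d} {h : ℤ} {x : Pt d} (hx : lev s x < h) : Below s h x (dl x) :=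
  ⟨hx, fun _ hy => dl_lt (hx.trans_le hy)⟩

lemma add1_zero {s : St d} {h : ℤ} {x : Pt d} {V : Pt d → ℕ} (hx : lev s x < h)
    (hV : ∀ y, h ≤ lev s y → V y = 0) : ∀ y, h ≤ lev s y → add1 V x y = 0 := fun y hy => by
  have : x ≠ y := fun e => by rw [e] at hx; omega
  simp [add1, hV y hy, this]

lemma hit_cons {s : St d} {h : ℤ} {E : (ℕ → Pt d) → Prop} {x : Pt d} (hx : lev s x < h)
    (p : ℕ → Pt d) : Hit s h E (cons x p) ↔ Hit s h E p := by
  constructor
  · rintro ⟨_ | t, h1, h2, h3⟩
    · exact absurd hx (not_lt.2 h2)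
    · exact ⟨t, fun k hk => h1 (k + 1) (by omega), h2, h3⟩
  · rintro ⟨t, h1, h2, h3⟩
    refine ⟨t + 1, fun k hk => ?_, h2, h3⟩
    rcases k with _ | k
    · exact hx
    · exact h1 k (by omega)

lemma hit_now {s : St d} {h : ℤ} {E : (ℕ → Pt d) → Prop} {p : ℕ → Pt d} (hp : h ≤ lev s (p 0)) :
    Hit s h E p ↔ E p := by
  constructor
  · rintro ⟨_ | t, h1, -, h3⟩
    · exact h3
    · exact absurd (h1 0 (by omega)) (not_lt.2 hp)
  · exact fun a => ⟨0, fun _ hk => absurd hk (by omega), hp, a⟩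

lemma stop (hd : 0 < d) {s : St d} {h : ℤ} {F G : (ℕ → Pt d) → Prop} {a c : ℝ} (ha : 0 ≤ a)
    (hc : 0 ≤ c) (hF : ∀ x p, lev s x < h → F (cons x p) → F p)
    (hG : ∀ x p, lev s x < h → G p → G (cons x p)) (h0 : ∀ x, lev s x < h → ¬F fun _ => x)
    (H : ∀ m y V, lev s y = h → Rec s y V → a * pr β m y V F ≤ pr β m y V G + c) :
    ∀ n x V, Below s h x V → a * pr β n x V F ≤ pr β n x V G + c
  | 0, x, V, hb => by
    rw [pr_zero, ind_not (h0 x hb.1), mul_zero]
    exact add_nonneg (pr_nonneg _ _ _ _) hc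
  | n + 1, x, V, hb => by
    have e : c = ∑ t, tr β x V t * c := by rw [← sum_mul, sum_tr hd, one_mul]
    rw [pr_succ, pr_succ, mul_sum, e, ← sum_add_distrib]
    refine sum_le_sum fun t _ => ?_
    rw [mul_left_comm, ← mul_add]
    refine mul_le_mul_of_nonneg_left ?_ (tr_nonneg _ _ _)
    have key : a * pr β n (x + step t) (add1 V (x + step t)) F ≤
        pr β n (x + step t) (add1 V (x + step t)) G + c := by
      by_cases b : lev s (x + step t) < h
      · exact stop hd ha hc hF hG h0 H n _ _ ⟨b, add1_zero b hb.2⟩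
      · have b1 := lev_step s t
        have b2 := lev_add s x (step t)
        have b3 := hb.1
        refine H n _ _ (by omega) fun z hz => ?_
        simp only [dl, add1, hb.2 z (by omega)]
    exact (mul_le_mul_of_nonneg_left (pr_mono _ fun p _ => hF x p hb.1) ha).trans
      (key.trans (add_le_add (pr_mono _ fun p _ => hG x p hb.1) le_rfl))

lemma stop_le (hd : 0 < d) {s : St d} {h : ℤ} {F : (ℕ → Pt d) → Prop} {c : ℝ}
    (hc : 0 ≤ c) (hF : ∀ x p, lev s x < h → F (cons x p) → F p)
    (h0 : ∀ x, lev s x < h → ¬F fun _ => x)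
    (H : ∀ m y V, lev s y = h → Rec s y V → pr β m y V F ≤ c) {n : ℕ} {x : Pt d} {V : Pt d → ℕ}
    (hb : Below s h x V) : pr β n x V F ≤ c := by
  have := stop (β := β) (G := fun _ => False) hd zero_le_one hc hF (fun _ _ _ a => a) h0
    (fun m y V a b => by
      rw [one_mul, pr_empty (E := fun _ => False) V fun _ _ a => a, zero_add]
      exact H m y V a b) n x V hb
  rwa [one_mul, pr_empty (E := fun _ => False) V fun _ _ a => a, zero_add] at this

lemma hit_const {s : St d} {h : ℤ} {E : (ℕ → Pt d) → Prop} (x : Pt d) (hx : lev s x < h) :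
    ¬Hit s h E fun _ => x := fun ⟨_, _, a, _⟩ => absurd hx (not_lt.2 a)

lemma pr_hit_now {s : St d} {E : (ℕ → Pt d) → Prop} (m : ℕ) (y : Pt d) (V : Pt d → ℕ) :
    pr β m y V (Hit s (lev s y) E) = pr β m y V E :=
  pr_congr V fun _ hp => hit_now (by rw [hp.1])

lemma hit_cmp (hd : 0 < d) {s : St d} {h : ℤ} {E E' : (ℕ → Pt d) → Prop} {a : ℝ} (ha : 0 ≤ a)
    (H : ∀ m y V, Rec s y V → a * pr β m y V E ≤ pr β m y V E') {n : ℕ} {x : Pt d}
    {V : Pt d → ℕ} (hb : Below s h x V) :
    a * pr β n x V (Hit s h E) ≤ pr β n x V (Hit s h E') := by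
  have := stop (β := β) (F := Hit s h E) (G := Hit s h E') hd ha le_rfl
    (fun x p hx => (hit_cons hx p).1) (fun x p hx => (hit_cons hx p).2) hit_const
    (fun m y V a b => by
      rw [← a, pr_hit_now, pr_hit_now, add_zero]
      exact H m y V b) n x V hb
  rwa [add_zero] at this

lemma hit_le (hd : 0 < d) {s : St d} {h : ℤ} {E : (ℕ → Pt d) → Prop} {c : ℝ} (hc : 0 ≤ c)
    (H : ∀ m y V, Rec s y V → pr β m y V E ≤ c) {n : ℕ} {x : Pt d}
    {V : Pt d → ℕ} (hb : Below s h x V) : pr β n x V (Hit s h E) ≤ c :=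
  stop_le hd hc (fun x p hx => (hit_cons hx p).1) hit_const
    (fun m y V a b => by rw [← a, pr_hit_now]; exact H m y V b) hb

lemma mk {s : St d} {h : ℤ} {F : (ℕ → Pt d) → Prop} {q : ℝ}
    (hF : ∀ x p, lev s x < h → F (cons x p) → F p)
    (H : ∀ n x V, Below s h x V → pr β n x V F ≤ q) (m : ℕ) :
    ∀ (J : ℕ) (x : Pt d) (V : Pt d → ℕ) (G : (ℕ → Pt d) → Prop), Dep J G → lev s x + J < h →
      (∀ y, h ≤ lev s y → V y = 0) →
      pr β (m + J) x V (fun p => G p ∧ F p) ≤ q * pr β J x V G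
  | 0, x, V, G, hG, hx, hV => by
    by_cases c : G fun _ => x
    · rw [pr_zero, ind_of c, mul_one]
      exact (pr_mono V fun _ _ a => a.2).trans (H _ x V ⟨by omega, hV⟩)
    · rw [pr_zero, ind_not c, mul_zero]
      exact (pr_empty V fun p hp a => c (hG _ _ (fun k hk => by
        rw [Nat.le_zero.1 hk, hp.1]) a.1)).le
  | J + 1, x, V, G, hG, hx, hV => by
    rw [← add_assoc, pr_succ, pr_succ, mul_sum]
    refine sum_le_sum fun t _ => ?_
    rw [mul_left_comm]
    have b1 := lev_step s t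
    have b2 := lev_add s x (step t)
    push_cast at hx
    exact mul_le_mul_of_nonneg_left ((pr_mono _ fun p _ a => ⟨a.1, hF x p (by omega) a.2⟩).trans
      (mk hF H m J _ _ _ (hG.cons x) (by omega) (add1_zero (by omega) hV))) (tr_nonneg _ _ _)

/-- The path climbs `k` spaced levels and the event `E` fails at each of them. -/
def Fail (s : St d) (J : ℕ) (E : (ℕ → Pt d) → Prop) (k : ℕ) (h : ℤ) (p : ℕ → Pt d) : Prop :=
  (∃ t, h + k * (J + 1) ≤ lev s (p t)) ∧ ∀ j < k, ¬Hit s (h + j * (J + 1)) E p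

lemma fail_cons {s : St d} {J k : ℕ} {E : (ℕ → Pt d) → Prop} {h : ℤ} (x : Pt d) (p : ℕ → Pt d)
    (hx : lev s x < h) (a : Fail s J E k h (cons x p)) : Fail s J E k h p := by
  have e : ∀ j : ℕ, lev s x < h + j * (J + 1) := fun j =>
    hx.trans_le (le_add_of_nonneg_right (by positivity))
  obtain ⟨⟨_ | t, ht⟩, b⟩ := a
  · exact absurd (e k) (not_lt.2 ht)
  · exact ⟨⟨t, ht⟩, fun j hj c => b j hj ((hit_cons (e j) p).2 c)⟩

lemma attempts (hd : 0 < d) {s : St d} {J : ℕ} {E : (ℕ → Pt d) → Prop} {r : ℝ} (hr : r ≤ 1)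
    (hE : Dep J E) (H : ∀ y V, Rec s y V → r ≤ pr β J y V E) :
    ∀ (k : ℕ) (h : ℤ) (n : ℕ) (x : Pt d) (V : Pt d → ℕ), Below s h x V →
      pr β n x V (Fail s J E k h) ≤ (1 - r) ^ k
  | 0, h, n, x, V, _ => by rw [pow_zero]; exact pr_le_one hd _ _ _ _
  | k + 1, h, n, x, V, hb => by
    have h1 : 0 ≤ 1 - r := sub_nonneg.2 hr
    refine stop_le hd (by positivity) fail_cons (fun x hx a => ?_) (fun m y V hy hV => ?_) hb
    · obtain ⟨⟨_, ht⟩, -⟩ := a
      exact absurd (hx.trans_le (le_add_of_nonneg_right (by positivity))) (not_lt.2 ht)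
    · by_cases hm : m < J
      · refine (pr_empty V fun p hp a => ?_).trans_le (by positivity)
        obtain ⟨⟨t, ht⟩, -⟩ := a
        have b1 := hp.bound s t
        have b2 : (0 : ℤ) ≤ k * (J + 1) := by positivity
        push_cast at ht
        nlinarith
      · obtain ⟨m, rfl⟩ : ∃ j, m = j + J := ⟨m - J, by omega⟩
        have b1 := mk (β := β) (s := s) (h := h + (J + 1)) fail_cons
          (attempts hd hr hE H k (h + (J + 1))) m J y V _ hE.not (by omega)
          fun z hz => (hV z (by omega)).trans (dl_lt (s := s) (by omega))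
        have b2 := pr_split (β := β) J y V (fun _ => True) E
        rw [pr_sure hd V fun _ _ => trivial] at b2
        simp only [true_and] at b2
        have b3 := H y V hV
        refine le_trans (pr_mono V fun p hp a => ?_) (b1.trans ?_)
        · refine ⟨fun c => a.2 0 (by omega) ?_, ?_, fun j hj => ?_⟩
          · exact (hit_now (by rw [hp.1, hy]; simp)).2 c
          · obtain ⟨t, ht⟩ := a.1
            refine ⟨t, ?_⟩
            push_cast at ht
            linarith
          · have := a.2 (j + 1) (by omega)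
            rwa [show h + ((j + 1 : ℕ) : ℤ) * (J + 1) = h + (J + 1) + j * (J + 1) by
              push_cast; ring] at this
        · rw [pow_succ]
          refine mul_le_mul_of_nonneg_left ?_ (by positivity)
          change 1 = pr β J y V E + _ at b2
          linarith

lemma zz_dl (y : Pt d) : zz β y (dl y) = 2 * d := by
  have : ∀ s : St d, dl y (y + step s) = 0 := fun s => dl_ne fun e => step_ne s (by simpa using e)
  simp [zz, this, mul_comm]

lemma rec_cmp (hd : 0 < d) (hβ : 0 ≤ β) {s : St d} {y : Pt d} {V : Pt d → ℕ} (hV : Rec s y V) :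
    ∃ c : ℝ, 1 ≤ c ∧ c ≤ 2 * d ∧ ∀ n E, 1 ≤ n → (∀ p, Path n y p → E p → Stay s n p) →
      pr β n y V E = c * pr β n y (dl y) E := by
  have h0 := zz_pos (β := β) hd y V
  have h1 : lev s y < lev s (y + step s) := by rw [lev_add, lev_step_self]; omega
  have h2 := le_zz (β := β) y V s
  rw [hV _ h1.le, dl_lt h1] at h2
  simp only [Nat.cast_zero, mul_zero, Real.exp_zero] at h2
  refine ⟨2 * d / zz β y V, (one_le_div h0).2 (zz_le hβ y V), div_le_self (by positivity) h2,
    fun n E hn hE => ?_⟩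
  have := pr_rec (β := β) hd s hn y hV hE
  rw [zz_dl] at this
  field_simp
  linarith

/-- The probability that a fresh walk stays above its first level. -/
noncomputable def rho (β : ℝ) (s : St d) (J : ℕ) : ℝ := pr β J 0 (dl 0) (Stay s J)

lemma stay_dep (s : St d) (J : ℕ) : Dep J (Stay s J) := fun p q e a k h1 h2 => by
  rw [← e 0 (by omega), ← e k h2]
  exact a k h1 h2

lemma pr_shift (n : ℕ) (y : Pt d) (E : (ℕ → Pt d) → Prop) :
    pr β n y (dl y) E = pr β n 0 (dl 0) fun p => E fun k => p k + y := by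
  have := pr_sym (β := β) (φ := fun x => x + y) (add_left_injective y) (Equiv.refl _)
    (fun x s => add_right_comm _ _ _) n 0 E
  simpa using this

lemma fresh_stay (hd : 0 < d) (s : St d) {J m : ℕ} (h : J ≤ m) (y : Pt d) :
    pr β m y (dl y) (Stay s J) = rho β s J := by
  rw [pr_trunc' hd h _ _ (stay_dep s J), pr_shift, rho]
  simp only [Stay, lev_add, add_lt_add_iff_right]
  rfl

lemma rho_anti (hd : 0 < d) (s : St d) {J m : ℕ} (h : J ≤ m) : rho β s m ≤ rho β s J := by
  rw [← fresh_stay hd s h 0]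
  exact pr_mono _ fun p _ a k h1 h2 => a k h1 (h2.trans h)

lemma rho_zero (s : St d) : rho β s 0 = 1 := ind_of fun k h1 h2 => absurd h1 (by omega)

lemma rec_stay (hd : 0 < d) (hβ : 0 ≤ β) {s : St d} {y : Pt d} {V : Pt d → ℕ} (hV : Rec s y V)
    (J : ℕ) : rho β s J ≤ pr β J y V (Stay s J) := by
  rcases Nat.eq_zero_or_pos J with rfl | hJ
  · rw [rho_zero]
    exact (ind_of fun k h1 h2 => absurd h1 (by omega)).ge
  · obtain ⟨c, h1, -, h3⟩ := rec_cmp hd hβ hV
    rw [h3 J _ hJ fun _ _ a => a, fresh_stay hd s le_rfl]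
    exact le_mul_of_one_le_left (pr_nonneg _ _ _ _) h1

/-- The reflection of one coordinate. -/
def refl (i : Fin d) (x : Pt d) : Pt d := fun j => if j = i then -x j else x j

/-- The reflection acting on directions. -/
def reflS (i : Fin d) (s : St d) : St d := (s.1, if s.1 = i then !s.2 else s.2)

lemma reflS_inv (i : Fin d) : Function.Involutive (reflS i) := fun s => by
  obtain ⟨k, b⟩ := s
  by_cases h : k = i <;> simp [reflS, h]

lemma refl_inv (i : Fin d) : Function.Involutive (refl i) := fun x => funext fun j => by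
  by_cases h : j = i <;> simp [refl, h]

lemma refl_step (i : Fin d) (x : Pt d) (s : St d) :
    refl i (x + step s) = refl i x + step (reflS i s) := by
  funext j
  obtain ⟨k, b⟩ := s
  by_cases h1 : j = i <;> by_cases h2 : k = i <;> cases b <;>
    simp [refl, reflS, step, Pi.single_apply, h1, h2, add_comm]

lemma lev_refl (i : Fin d) (s : St d) (x : Pt d) : lev s (refl i x) = lev (reflS i s) x := by
  obtain ⟨k, b⟩ := s
  by_cases h2 : k = i <;> cases b <;> simp [lev, refl, reflS, h2]

lemma pr_refl (i : Fin d) (n : ℕ) (E : (ℕ → Pt d) → Prop) :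
    pr β n 0 (dl 0) E = pr β n 0 (dl 0) fun p => E fun k => refl i (p k) := by
  have := pr_sym (β := β) (refl_inv i).injective (reflS_inv i).toPerm (refl_step i) n 0 E
  rwa [show refl i (0 : Pt d) = 0 from funext fun j => by simp [refl]] at this

lemma rho_sym (s t : St d) (J : ℕ) : rho β s J = rho β t J := by
  have h1 : ∀ (i : Fin d) (b : Bool), rho β (i, b) J = rho β (i, true) J := fun i b => by
    cases b
    · rw [rho, pr_refl i]
      simp only [Stay, lev_refl, reflS, if_true, Bool.not_false]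
      rfl
    · rfl
  obtain ⟨i, b⟩ := s
  obtain ⟨j, c⟩ := t
  rw [h1, h1 j]
  have := pr_sym (β := β) (φ := fun x : Pt d => fun k => x (Equiv.swap i j k))
    (fun x y e => funext fun k => by simpa using congrFun e (Equiv.swap i j k))
    ((Equiv.swap i j).prodCongr (Equiv.refl _)) (fun x s => funext fun k => by
      obtain ⟨l, b⟩ := s
      cases b <;> simp [step, Pi.single_apply, Equiv.swap_apply_eq_iff]) J 0 (Stay (i, true) J)
  refine this.trans ?_
  simp only [Stay, lev, if_true, Equiv.swap_apply_left]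
  rfl

end Pool.Agent.Lib.MP_aa337a_pr.Sb
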