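import Pool.Agent.Lib.MP_aa337a_pr.Sb.Back

/-! The walk is slow in every direction. -/

set_option autoImplicit false

namespace Pool.Agent.Lib.MP_aa337a_pr.Sb

open Finset

variable {β : ℝ} {d : ℕ}

/-- The path is at level `h` at time `a` and above it during the next `J` steps. -/
def Last (s : St d) (h : ℤ) (a J : ℕ) (p : ℕ → Pt d) : Prop :=
  lev s (p a) = h ∧ ∀ k, a < k → k ≤ a + J → h < lev s (p k)

lemma last_cmp (hd : 0 < d) (hβ : 0 ≤ β) (s : St d) (h : ℤ) {J : ℕ} (hJ : 1 ≤ J) (B : ℕ) :
    ∀ (a : ℕ) (x : Pt d) (V W : Pt d → ℕ), (∀ y, h ≤ lev s y → V y = W y) →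
      (∀ y, W y + a ≤ B) → pr β (J + a) x V (Last s h a J) ≤
        (2 * d * Real.exp (β * B)) ^ (a + 1) * pr β (J + a) x W (Last s h a J)
  | 0, x, V, W, e, hW => by
    by_cases hx : lev s x = h
    · have h1 := pr_rec (β := β) hd s hJ x (E := Last s h 0 J) (hx ▸ e) fun p _ a k b c => by
        rw [a.1]
        exact a.2 k b (by omega)
      have h2 := le_zz (β := β) x V s
      have h3 : (V (x + step s) : ℝ) ≤ B := by
        rw [e _ (by rw [lev_add, lev_step_self]; omega)]
        exact_mod_cast hW (x + step s)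
      have h4 : 1 ≤ zz β x V * Real.exp (β * B) := by
        refine le_trans ?_ (mul_le_mul_of_nonneg_right h2 (Real.exp_pos _).le)
        rw [← Real.exp_add]
        exact Real.one_le_exp (by nlinarith)
      have h5 := mul_le_mul_of_nonneg_left (zz_le hβ x W) (pr_nonneg (β := β) J x W (Last s h 0 J))
      have h6 := mul_le_mul_of_nonneg_right (h1.le.trans h5) (Real.exp_pos (β * B)).le
      have h7 := le_mul_of_one_le_right (pr_nonneg (β := β) J x V (Last s h 0 J)) h4
      simp only [Nat.add_zero, zero_add, pow_one]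
      linarith
    · rw [pr_empty V fun p hp a => hx (by rw [← hp.1]; exact a.1)]
      exact mul_nonneg (by positivity) (pr_nonneg _ _ _ _)
  | a + 1, x, V, W, e, hW => by
    rw [← add_assoc, pr_succ, pr_succ, mul_sum]
    refine sum_le_sum fun t _ => ?_
    have e1 : ∀ U, pr β (J + a) (x + step t) U (fun p => Last s h (a + 1) J (cons x p)) =
        pr β (J + a) (x + step t) U (Last s h a J) := fun U => pr_congr U fun p _ =>
      and_congr Iff.rfl ⟨fun b k c f => b (k + 1) (by omega) (by omega), fun b k c f => by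
        obtain ⟨k, rfl⟩ : ∃ j, k = j + 1 := ⟨k - 1, by omega⟩
        exact b k (by omega) (by omega)⟩
    have h1 := last_cmp hd hβ s h hJ B a (x + step t) (add1 V (x + step t)) (add1 W (x + step t))
      (fun y hy => by simp only [add1, e y hy]) fun y => by
        have := hW y
        simp only [add1]
        split_ifs <;> omega
    have h2 : tr β x V t ≤ 1 := div_le_one_of_le₀ (le_zz x V t) (zz_pos hd x V).le
    have h3 := tr_ge hd hβ (x := x) (V := W) (t := t) (B := B) (by have := hW (x + step t); omega)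
    have h4 : 1 ≤ 2 * d * Real.exp (β * B) * tr β x W t := by
      refine le_trans (le_of_eq ?_) (mul_le_mul_of_nonneg_left h3 (by positivity))
      rw [neg_mul, Real.exp_neg]
      field_simp
    have h5 : 0 ≤ (2 * d * Real.exp (β * B)) ^ (a + 1) := by positivity
    rw [e1, e1, pow_succ]
    refine (mul_le_of_le_one_left (pr_nonneg _ _ _ _) h2).trans (h1.trans ?_)
    generalize 2 * d * Real.exp (β * B) = c at h4 h5 ⊢
    rw [mul_assoc, ← mul_assoc c]
    exact mul_le_mul_of_nonneg_left (le_mul_of_one_le_left (pr_nonneg _ _ _ _) h4) h5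

lemma stair (hd : 0 < d) (hβ : 0 ≤ β) (s : St d) (h : ℤ) (m : ℕ) :
    ∀ (j : ℕ) (x : Pt d) (V : Pt d → ℕ), Rec s x V → h ≤ lev s x → ∃ y W, Rec s y W ∧
      lev s y = lev s x + j ∧ (∀ z, W z ≤ V z + j) ∧
      (1 / (2 * d) : ℝ) ^ j * pr β m y W (fun p => ∀ k, 1 ≤ k → h < lev s (p k)) ≤
        pr β (m + j) x V fun p => ∀ k, 1 ≤ k → h < lev s (p k)
  | 0, x, V, hV, _ => ⟨x, V, hV, by simp, by simp, by simp⟩
  | j + 1, x, V, hV, hx => by
    have e1 := lev_add s x (step s)
    rw [lev_step_self] at e1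
    have e3 : ∀ z, lev s x < lev s z → V z = 0 := fun z hz => (hV z hz.le).trans (dl_lt hz)
    obtain ⟨y, W, h1, h2, h3, h4⟩ := stair hd hβ s h m j (x + step s) (add1 V (x + step s))
      (fun z hz => by simp only [dl, add1, e3 z (by omega)]) (by omega)
    refine ⟨y, W, h1, by push_cast; omega, fun z => ?_, ?_⟩
    · have := h3 z
      simp only [add1] at this
      split_ifs at this <;> omega
    · refine le_trans ?_ (one_step hd hβ (e3 (x + step s) (by omega)) _ _)
      rw [pow_succ', mul_assoc]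
      refine mul_le_mul_of_nonneg_left (h4.trans (pr_mono _ fun p hp a k hk => ?_)) (by positivity)
      obtain ⟨k, rfl⟩ : ∃ j, k = j + 1 := ⟨k - 1, by omega⟩
      rcases Nat.eq_zero_or_pos k with rfl | c
      · rw [cons_succ, hp.1]
        omega
      · exact a k c

/-- After a short piece the path leaves its first level for a long time. -/
def Leave (s : St d) (K J : ℕ) (q : ℕ → Pt d) : Prop := ∃ a ≤ K, Last s (lev s (q 0)) a J q

lemma last_dep (s : St d) (h : ℤ) (a J : ℕ) : Dep (J + a) (Last s h a J) := fun _ _ e b =>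
  ⟨e a (by omega) ▸ b.1, fun k c f => e k (by omega) ▸ b.2 k c f⟩

lemma leave_dep (s : St d) {K J D : ℕ} (h : K + J ≤ D) : Dep D (Leave s K J) :=
  fun p q e ⟨a, b, c⟩ => ⟨a, b, e 0 (by omega) ▸
    last_dep s _ a J p q (fun k hk => e k (by omega)) c⟩

lemma leave_small (hd : 2 ≤ d) (hβ : 0 ≤ β) (K : ℕ) {η : ℝ} (hη : 0 < η) :
    ∃ J, ∀ (s : St d) m y V, K + J ≤ m → Rec s y V → pr β m y V (Leave s K J) ≤ η := by
  have hd0 : 0 < d := by omega
  have hd' : (1 : ℝ) ≤ d := by exact_mod_cast hd0
  obtain ⟨c, hc⟩ : ∃ c, c = 2 * d * Real.exp (β * (2 * K + 2 : ℕ)) := ⟨_, rfl⟩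
  have c1 : 1 ≤ c := by
    have := Real.one_le_exp (show 0 ≤ β * (2 * K + 2 : ℕ) by positivity)
    nlinarith
  obtain ⟨J, hJ, hr⟩ := rho_small (β := β) hd hβ
    (show 0 < η / (K + 1) / c ^ (K + 1) * (1 / (2 * d)) ^ (K + 1) by positivity)
  refine ⟨J, fun s m y V hm hV => ?_⟩
  refine (pr_union (range (K + 1)) V (fun a => Last s (lev s y) a J) (c := η / (K + 1))
    (fun p hp ⟨a, b, e⟩ => ⟨a, mem_range.2 (by omega), hp.1 ▸ e⟩) fun a ha => ?_).trans
    (le_of_eq (by rw [card_range]; push_cast; field_simp))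
  have ha' := mem_range.1 ha
  obtain ⟨z, W, h1, h2, h3, h4⟩ := stair hd0 hβ s 0 (J + a) (K + 1) 0 (dl 0) (fun _ _ => rfl)
    (lev_zero s).ge
  rw [lev_zero, zero_add] at h2
  have h5 : pr β (J + a + (K + 1)) 0 (dl 0) (fun p => ∀ k, 1 ≤ k → 0 < lev s (p k)) ≤ rho β s J :=
    (pr_mono _ fun p hp b k e _ => by rw [hp.1, lev_zero]; exact b k e).trans
      (fresh_stay hd0 s (by omega) 0).le
  have h6 : pr β (J + a) z W (Last s (lev s z) a J) ≤
      pr β (J + a) z W fun p => ∀ k, 1 ≤ k → 0 < lev s (p k) := pr_mono _ fun p hp b k _ => by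
    rcases le_or_gt k a with e | e
    · have := (hp.lip s (Nat.zero_le k)).2
      rw [hp.1] at this
      push_cast at h2
      omega
    · rcases le_total k (J + a) with f | f
      · have := b.2 k e (by omega)
        omega
      · have := b.2 (J + a) (by omega) (by omega)
        rw [hp.2.2 k f]
        omega
  have h7 := last_cmp hd0 hβ s (lev s z) hJ (2 * K + 2) a z (fun x => V (x + (y - z))) W
    (fun x hx => by
      have e1 := lev_add s x (y - z)
      have e2 := lev_add s z (y - z)
      rw [add_sub_cancel] at e2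
      rw [hV _ (by omega), h1 x hx]
      simp only [dl, add1]
      exact congrArg _ (if_congr ⟨fun e => by linear_combination e, fun e => by
        rw [← e, add_sub_cancel]⟩ rfl rfl)) fun x => by
      have := h3 x
      simp only [dl, add1] at this
      split_ifs at this <;> omega
  have h8 : pr β (J + a) y V (Last s (lev s y) a J) =
      pr β (J + a) z (fun x => V (x + (y - z))) (Last s (lev s z) a J) := by
    have := fx_sym (β := β) (φ := fun x => x + (y - z)) (add_left_injective _) (Equiv.refl _)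
      (fun x s => add_right_comm _ _ _) (J + a) z V fun p => ind (Last s (lev s y) a J p)
    have e2 := lev_add s z (y - z)
    rw [add_sub_cancel] at e2
    simp only [add_sub_cancel] at this
    rw [pr, this]
    simp only [Last, lev_add, e2, add_left_inj, add_lt_add_iff_right]
    rfl
  rw [pr_trunc' hd0 (show J + a ≤ m by omega) _ _ (last_dep s _ a J), h8]
  rw [← hc] at h7
  have h9 : pr β (J + a) z W (Last s (lev s z) a J) ≤ η / (K + 1) / c ^ (K + 1) := by
    refine le_of_mul_le_mul_left ?_ (show (0 : ℝ) < (1 / (2 * d)) ^ (K + 1) by positivity)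
    refine (mul_le_mul_of_nonneg_left h6 (by positivity)).trans (h4.trans (h5.trans ?_))
    rw [mul_comm]
    exact hr s
  refine h7.trans ((mul_le_mul (pow_le_pow_right₀ c1 (show a + 1 ≤ K + 1 by omega)) h9
    (pr_nonneg _ _ _ _) (by positivity)).trans (le_of_eq ?_))
  field_simp

lemma tele (T : ℕ → ℕ) {n : ℕ} (hn : ∀ m, T m ≤ n) (A h : ℕ) :
    ∑ m ∈ range A, T (m + h) ≤ ∑ m ∈ range A, T m + h * n := by
  induction h with
  | zero => simp
  | succ h ih =>
    have h1 := sum_range_succ' (fun m => T (m + h)) A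
    have h2 := sum_range_succ (fun m => T (m + h)) A
    have h3 := hn (A + h)
    have h4 : ∑ m ∈ range A, T (m + (h + 1)) = ∑ m ∈ range A, T (m + 1 + h) :=
      sum_congr rfl fun m _ => by rw [add_right_comm, add_assoc]
    rw [h4, add_mul]
    omega

lemma scales {n c k L : ℕ} {s : St d} {p : ℕ → Pt d} (hp : Path n 0 p) {h J : ℕ → ℕ}
    (h0 : ∀ i, 1 ≤ h i) (h1 : ∀ i, h i + c * h i + J i ≤ h (i + 1)) (hc : 1 ≤ c) (hk : 1 ≤ k)
    (hL : ∃ t, ((L + h k : ℕ) : ℤ) ≤ lev s (p t)) :
    (L : ℝ) ≤ k * (n / c) + (n + 1) / k +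
      ∑ m ∈ range L, ∑ i ∈ range k, ind (Hit s (m + 1) (Leave s (c * h i) (J i)) p) := by
  classical
  have ex : ∀ m : ℕ, ∃ t, n ≤ t ∨ (m : ℤ) ≤ lev s (p t) := fun m => ⟨n, Or.inl le_rfl⟩
  obtain ⟨T, hT⟩ : ∃ T : ℕ → ℕ, T = fun m => Nat.find (ex m) := ⟨_, rfl⟩
  have hm : Monotone h := monotone_nat_of_le_succ fun i => by have := h1 i; omega
  have t1 : ∀ m, T m ≤ n := fun m => hT ▸ Nat.find_min' (ex m) (Or.inl le_rfl)
  have t2 : ∀ m t, t < T m → lev s (p t) < m := fun m t a =>
    not_le.1 fun b => Nat.find_min (ex m) (by rwa [hT] at a) (Or.inr b)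
  have t3 : ∀ m, m ≤ L + h k → (m : ℤ) ≤ lev s (p (T m)) := fun m a => by
    obtain ⟨t, ht⟩ := hL
    have b : n ≤ T m ∨ (m : ℤ) ≤ lev s (p (T m)) := hT ▸ Nat.find_spec (ex m)
    rcases b with b | b
    · by_cases e : t < T m
      · have := t2 m t e
        omega
      · rw [hp.2.2 _ b, ← hp.2.2 t (by omega)]
        omega
    · exact b
  have t4 : Monotone T := fun a b e => hT ▸ Nat.find_mono fun t f => f.imp_right fun g => by omega
  have t5 : ∀ m, 1 ≤ m → lev s (p (T m)) ≤ m := fun m a => by
    rcases Nat.eq_zero_or_pos (T m) with e | e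
    · rw [e, hp.1, lev_zero]
      omega
    · have b1 := t2 m (T m - 1) (by omega)
      have b2 := (hp.one s (T m - 1)).1
      rw [Nat.sub_add_cancel e] at b2
      omega
  have key : ∀ m < L, (1 : ℝ) ≤ ∑ i ∈ range k, ((T (m + 1 + h i) : ℝ) - T (m + 1)) / (c * h i) +
      (((range (n + 1)).filter fun t => lev s (p t) = m + 1).card : ℝ) / k +
      ∑ i ∈ range k, ind (Hit s (m + 1) (Leave s (c * h i) (J i)) p) := by
    intro m hmL
    have n1 : ∀ i, 0 ≤ ((T (m + 1 + h i) : ℝ) - T (m + 1)) / (c * h i) := fun i =>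
      div_nonneg (sub_nonneg.2 (by exact_mod_cast t4 (by omega))) (by positivity)
    have n2 := sum_nonneg fun i (_ : i ∈ range k) => n1 i
    have n3 : (0 : ℝ) ≤ (((range (n + 1)).filter fun t => lev s (p t) = m + 1).card : ℝ) / k := by
      positivity
    have n4 := sum_nonneg fun i (_ : i ∈ range k) =>
      ind_nonneg (Hit s (m + 1) (Leave s (c * h i) (J i)) p)
    by_cases a1 : ∃ i < k, T (m + 1) + c * h i < T (m + 1 + h i)
    · obtain ⟨i, hi, a1⟩ := a1
      have b1 := single_le_sum (fun i (_ : i ∈ range k) => n1 i) (mem_range.2 hi)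
      have b2 : (1 : ℝ) ≤ ((T (m + 1 + h i) : ℝ) - T (m + 1)) / (c * h i) := by
        have := h0 i
        rw [one_le_div (by positivity), le_sub_iff_add_le']
        exact_mod_cast a1.le
      linarith
    by_cases a2 : ∃ i < k, Hit s (m + 1) (Leave s (c * h i) (J i)) p
    · obtain ⟨i, hi, a2⟩ := a2
      have b1 := single_le_sum (fun i (_ : i ∈ range k) =>
        ind_nonneg (Hit s (m + 1) (Leave s (c * h i) (J i)) p)) (mem_range.2 hi)
      rw [ind_of a2] at b1
      linarith
    push Not at a1 a2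
    have a3 : ∀ i < k, ∃ t, T (m + 1 + h i) ≤ t ∧ t < T (m + 1 + h (i + 1)) ∧
        lev s (p t) = m + 1 := by
      intro i hi
      obtain ⟨u, hu⟩ : ∃ u, u = T (m + 1 + h (i + 1)) := ⟨_, rfl⟩
      have b0 := hm (show i + 1 ≤ k from hi)
      have b1 := t3 (m + 1 + h (i + 1)) (by omega)
      have b2 := t3 (m + 1) (by have := h0 k; omega)
      have b3 := t5 (m + 1) (by omega)
      have b4 : T (m + 1) ≤ u := hu ▸ t4 (by omega)
      have b5 := h0 (i + 1)
      have b6 := h1 i
      rw [← hu] at b1 ⊢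
      obtain ⟨a, ha⟩ : ∃ a, a = Nat.findGreatest (fun t => lev s (p t) ≤ m + 1) u := ⟨_, rfl⟩
      have c1 : T (m + 1) ≤ a := ha ▸ Nat.le_findGreatest b4 (by exact_mod_cast b3)
      have c2 : lev s (p a) ≤ m + 1 :=
        ha ▸ Nat.findGreatest_spec (P := fun t => lev s (p t) ≤ m + 1) b4 (by exact_mod_cast b3)
      have c3 : a ≤ u := ha ▸ Nat.findGreatest_le u
      have c4 : ∀ t, a < t → t ≤ u → (m : ℤ) + 1 < lev s (p t) := fun t e f =>
        not_le.1 (Nat.findGreatest_is_greatest (ha ▸ e) f)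
      have c5 := (hp.lip s c3).1
      have c6 := c4 (a + 1) (by omega) (by omega)
      have c7 := (hp.one s a).1
      by_cases e : T (m + 1 + h i) ≤ a
      · exact ⟨a, e, by omega, by omega⟩
      · have c8 := a1 i hi
        refine absurd ⟨T (m + 1), fun t f => by exact_mod_cast t2 _ t f, by exact_mod_cast b2,
          a - T (m + 1), by omega, ?_, fun t f g => ?_⟩ (a2 i hi)
        · simp only [Nat.sub_add_cancel c1, zero_add]
          omega
        · have := c4 (t + T (m + 1)) (by omega) (by omega)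
          simp only [zero_add]
          omega
    choose! f f1 f2 f3 using a3
    have a4 : (range k).card ≤ ((range (n + 1)).filter fun t => lev s (p t) = m + 1).card := by
      have lt : ∀ i < k, ∀ j < k, i < j → f i < f j := fun i hi j hj e =>
        (f2 i hi).trans_le ((t4 (by have := hm (show i + 1 ≤ j from e); omega)).trans (f1 j hj))
      refine card_le_card_of_injOn f (fun i hi => ?_) fun i hi j hj e => ?_
      · have hi' : i < k := by simpa using hi
        have := t1 (m + 1 + h (i + 1))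
        have := f2 i hi'
        exact mem_coe.2 (mem_filter.2 ⟨mem_range.2 (by omega), f3 i hi'⟩)
      · have hi' : i < k := by simpa using hi
        have hj' : j < k := by simpa using hj
        have := lt i hi' j hj'
        have := lt j hj' i hi'
        omega
    rw [card_range] at a4
    have a5 : (1 : ℝ) ≤ (((range (n + 1)).filter fun t => lev s (p t) = m + 1).card : ℝ) / k := by
      rw [one_le_div (by positivity)]
      exact_mod_cast a4
    linarith
  have s0 := sum_le_sum fun m (hm : m ∈ range L) => key m (mem_range.1 hm)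
  rw [sum_add_distrib, sum_add_distrib, sum_comm, ← sum_div] at s0
  have s1 : ∀ i ∈ range k, ∑ m ∈ range L, ((T (m + 1 + h i) : ℝ) - T (m + 1)) / (c * h i) ≤
      n / c := fun i _ => by
    have b1 := tele (fun m => T (m + 1)) (fun m => t1 _) L (h i)
    have b2 := h0 i
    simp only [add_right_comm _ (h i) 1] at b1
    rw [← sum_div, sum_sub_distrib, div_le_div_iff₀ (by positivity) (by positivity)]
    have b3 : ∑ m ∈ range L, (T (m + 1 + h i) : ℝ) ≤ ∑ m ∈ range L, (T (m + 1) : ℝ) + h i * n := by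
      exact_mod_cast b1
    have b4 : (0 : ℝ) ≤ c := by positivity
    nlinarith
  have s2 := sum_le_card_nsmul _ _ _ s1
  rw [card_range, nsmul_eq_mul] at s2
  have s3 : ∑ m ∈ range L, (((range (n + 1)).filter fun t => lev s (p t) = m + 1).card : ℝ) ≤
      n + 1 := by
    have b1 : ∑ m ∈ range L, ((range (n + 1)).filter fun t => lev s (p t) = m + 1).card ≤
        (range (n + 1)).card := by
      rw [← card_biUnion fun a _ b _ e => disjoint_filter.2 fun t _ f g => e (by omega)]
      exact card_le_card (biUnion_subset.2 fun _ _ => filter_subset _ _)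
    rw [card_range] at b1
    exact_mod_cast b1
  have s4 := div_le_div_of_nonneg_right s3 (show (0 : ℝ) ≤ k by positivity)
  simp only [sum_const, card_range, nsmul_eq_mul, mul_one] at s0
  linarith

end Pool.Agent.Lib.MP_aa337a_pr.Sb
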