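import Pool.Agent.Lib.MP_aa337a_pr.Sb.Slow

/-! The exponential tail. -/

set_option autoImplicit false

namespace Pool.Agent.Lib.MP_aa337a_pr.Sb

open Finset

variable {β : ℝ} {d : ℕ}

/-- The path climbs `k` spaced levels and the given events hold at them. -/
def Every (s : St d) (J : ℕ) (E : ℕ → (ℕ → Pt d) → Prop) (k : ℕ) (h : ℤ) (p : ℕ → Pt d) : Prop :=
  (∃ t, h + k * (J + 1) ≤ lev s (p t)) ∧ ∀ j < k, Hit s (h + j * (J + 1)) (E j) p

lemma every_cons {s : St d} {J k : ℕ} {E : ℕ → (ℕ → Pt d) → Prop} {h : ℤ} (x : Pt d)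
    (p : ℕ → Pt d) (hx : lev s x < h) (a : Every s J E k h (cons x p)) : Every s J E k h p := by
  have e : ∀ j : ℕ, lev s x < h + j * (J + 1) := fun j =>
    hx.trans_le (le_add_of_nonneg_right (by positivity))
  obtain ⟨⟨_ | t, ht⟩, b⟩ := a
  · exact absurd (e k) (not_lt.2 ht)
  · exact ⟨⟨t, ht⟩, fun j hj => (hit_cons (e j) p).1 (b j hj)⟩

lemma every_le (hd : 0 < d) {s : St d} {J : ℕ} :
    ∀ (k : ℕ) (E : ℕ → (ℕ → Pt d) → Prop) (q : ℕ → ℝ), (∀ j, 0 ≤ q j) → (∀ j, Dep J (E j)) →
      (∀ j y V, Rec s y V → pr β J y V (E j) ≤ q j) → ∀ (h : ℤ) (n : ℕ) (x : Pt d)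
      (V : Pt d → ℕ), Below s h x V → pr β n x V (Every s J E k h) ≤ ∏ j ∈ range k, q j
  | 0, _, _, _, _, _, h, n, x, V, _ => by rw [prod_range_zero]; exact pr_le_one hd _ _ _ _
  | k + 1, E, q, hq, hE, H, h, n, x, V, hb => by
    have h1 : 0 ≤ ∏ j ∈ range (k + 1), q j := prod_nonneg fun j _ => hq j
    refine stop_le hd h1 every_cons (fun x hx a => ?_) (fun m y V hy hV => ?_) hb
    · obtain ⟨⟨_, ht⟩, -⟩ := a
      exact absurd (hx.trans_le (le_add_of_nonneg_right (by positivity))) (not_lt.2 ht)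
    · by_cases hm : m < J
      · refine (pr_empty V fun p hp a => ?_).trans_le h1
        obtain ⟨⟨t, ht⟩, -⟩ := a
        have b1 := hp.bound s t
        have b2 : (0 : ℤ) ≤ k * (J + 1) := by positivity
        push_cast at ht
        nlinarith
      · obtain ⟨m, rfl⟩ : ∃ j, m = j + J := ⟨m - J, by omega⟩
        have b1 := mk (β := β) (s := s) (h := h + (J + 1)) every_cons
          (every_le hd k (fun j => E (j + 1)) (fun j => q (j + 1)) (fun j => hq _)
            (fun j => hE _) (fun j => H _) (h + (J + 1))) m J y V _ (hE 0) (by omega)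
          fun z hz => (hV z (by omega)).trans (dl_lt (s := s) (by omega))
        refine le_trans (pr_mono V fun p hp a => ?_) (b1.trans ?_)
        · refine ⟨?_, ?_, fun j hj => ?_⟩
          · exact (hit_now (by rw [hp.1, hy]; simp)).1 (a.2 0 (by omega))
          · obtain ⟨t, ht⟩ := a.1
            refine ⟨t, ?_⟩
            push_cast at ht
            linarith
          · have := a.2 (j + 1) (by omega)
            rwa [show h + ((j + 1 : ℕ) : ℤ) * (J + 1) = h + (J + 1) + j * (J + 1) by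
              push_cast; ring] at this
        · rw [prod_range_succ']
          exact mul_le_mul_of_nonneg_left (H 0 y V hV) (prod_nonneg fun j _ => hq _)

lemma many (hd : 0 < d) {s : St d} {J : ℕ} {E : (ℕ → Pt d) → Prop} {q : ℝ} (h0 : 0 ≤ q)
    (h1 : q ≤ 1) (hE : Dep J E) (H : ∀ y V, Rec s y V → pr β J y V E ≤ q) (k a : ℕ) {h : ℤ}
    (n : ℕ) {x : Pt d} {V : Pt d → ℕ} (hb : Below s h x V) :
    pr β n x V (fun p => (∃ t, h + k * (J + 1) ≤ lev s (p t)) ∧
      (a : ℝ) ≤ ∑ j ∈ range k, ind (Hit s (h + j * (J + 1)) E p)) ≤ 2 ^ k * q ^ a := by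
  classical
  refine (pr_union ((range k).powerset.filter fun S => a ≤ S.card) V
    (fun S => Every s J (fun j p => j ∈ S → E p) k h) (c := q ^ a) (fun p _ b => ?_)
    fun S hS => ?_).trans (mul_le_mul_of_nonneg_right ?_ (by positivity))
  · refine ⟨(range k).filter fun j => Hit s (h + j * (J + 1)) E p,
      mem_filter.2 ⟨mem_powerset.2 (filter_subset _ _), ?_⟩, b.1, fun j hj => ?_⟩
    · have := b.2
      simp only [ind, sum_boole] at this
      exact_mod_cast this
    · by_cases c : Hit s (h + j * (J + 1)) E p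
      · obtain ⟨t, c1, c2, c3⟩ := c
        exact ⟨t, c1, c2, fun _ => c3⟩
      · obtain ⟨t, ht⟩ := b.1
        have c1 : (j : ℤ) * (J + 1) ≤ k * (J + 1) := by gcongr
        have ex : ∃ t, h + j * (J + 1) ≤ lev s (p t) := ⟨t, by omega⟩
        exact ⟨Nat.find ex, fun l hl => not_le.1 (Nat.find_min ex hl), Nat.find_spec ex,
          fun e => absurd (mem_filter.1 e).2 c⟩
  · obtain ⟨c1, c2⟩ := mem_filter.1 hS
    refine (every_le hd k (fun j p => j ∈ S → E p) (fun j => if j ∈ S then q else 1)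
      (fun j => by positivity) (fun j p p' e b c => hE p p' e (b c)) (fun j y W hW => ?_)
      h n x V hb).trans ?_
    · split_ifs with c
      · exact (pr_mono W fun _ _ b => b c).trans (H y W hW)
      · exact pr_le_one hd _ _ _ _
    · rw [prod_ite_mem, inter_eq_right.2 (mem_powerset.1 c1), prod_const]
      exact pow_le_pow_of_le_one h0 h1 c2
  · have := card_filter_le (range k).powerset fun S => a ≤ S.card
    rw [card_powerset, card_range] at this
    exact_mod_cast this

lemma sum_blocks (f : ℕ → ℝ) (D M : ℕ) :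
    ∑ m ∈ range (M * D), f m = ∑ r ∈ range D, ∑ j ∈ range M, f (r + j * D) := by
  induction M with
  | zero => simp
  | succ M ih =>
    rw [add_mul, one_mul, sum_range_add, ih]
    simp only [sum_range_succ, sum_add_distrib, add_comm (M * D)]

theorem slow (hd : 2 ≤ d) (hβ : 0 ≤ β) {q : ℕ} (hq : 1 ≤ q) :
    ∃ (C : ℝ) (Q N : ℕ), 0 < Q ∧ ∀ n, N ≤ n → ∀ s : St d,
      pr β n 0 (dl 0) (fun p => ∃ t, (n : ℤ) ≤ q * lev s (p t)) ≤ C * (1 / 2) ^ (n / Q) := by
  have hd0 : 0 < d := by omega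
  have hq' : (1 : ℝ) ≤ q := by exact_mod_cast hq
  choose J hJ using fun K => leave_small (β := β) hd hβ K
    (show (0 : ℝ) < (1 / 2) ^ (32 * q) by positivity)
  obtain ⟨h, h0, h1⟩ : ∃ h : ℕ → ℕ, h 0 = 1 ∧
      ∀ i, h (i + 1) = h i + 16 * q * q * h i + J (16 * q * q * h i) :=
    ⟨fun i => Nat.rec 1 (fun _ a => a + 16 * q * q * a + J (16 * q * q * a)) i, rfl, fun _ => rfl⟩
  have h2 : ∀ i, 1 ≤ h i := fun i => by
    induction i with
    | zero => omega
    | succ i ih => rw [h1]; omega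
  have hm : Monotone h := monotone_nat_of_le_succ fun i => by have := h1 i; omega
  obtain ⟨D, hD⟩ : ∃ D, D = h (4 * q) := ⟨_, rfl⟩
  have h3 : ∀ i < 4 * q, 16 * q * q * h i + J (16 * q * q * h i) ≤ D := fun i hi => by
    have := hm (show i + 1 ≤ 4 * q from hi)
    have := h1 i
    omega
  refine ⟨(D + 1) * (4 * q) * 2 ^ (32 * q), q * (D + 1), 4 * q * (2 * D + 3), by positivity,
    fun n hn s => ?_⟩
  obtain ⟨M, hM⟩ : ∃ M, n / (q * (D + 1)) = M + 1 := ⟨n / (q * (D + 1)) - 1, by
    have : 1 ≤ n / (q * (D + 1)) := (Nat.le_div_iff_mul_le (by positivity)).2 (by nlinarith)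
    omega⟩
  have l3 : q * (D + 1) * (M + 1) ≤ n := hM ▸ Nat.mul_div_le n _
  have l4 : n < q * (D + 1) * (M + 1 + 1) := hM ▸ Nat.lt_mul_div_succ n (by positivity)
  obtain ⟨a, ha⟩ : ∃ a, a = (M + 1) / (16 * q) := ⟨_, rfl⟩
  have l5 : 16 * q * a ≤ M + 1 := ha ▸ Nat.mul_div_le _ _
  have l6 : M + 1 < 16 * q * (a + 1) := ha ▸ Nat.lt_mul_div_succ _ (by positivity)
  rw [hM]
  refine (pr_union (range (D + 1) ×ˢ range (4 * q)) _ (fun x p =>
    (∃ t, ((x.1 : ℤ) + 1) + M * (D + 1) ≤ lev s (p t)) ∧ (a : ℝ) ≤ ∑ j ∈ range M,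
      ind (Hit s (((x.1 : ℤ) + 1) + j * (D + 1))
        (Leave s (16 * q * q * h x.2) (J (16 * q * q * h x.2))) p))
    (c := 2 ^ M * ((1 / 2) ^ (32 * q)) ^ a) (fun p hp ht => ?_) fun x hx => ?_).trans ?_
  · obtain ⟨t, ht⟩ := ht
    have b0 : (((M + 1) * (D + 1) : ℕ) : ℤ) ≤ lev s (p t) := by
      refine le_of_mul_le_mul_left (le_trans ?_ ht) (show (0 : ℤ) < q by omega)
      exact_mod_cast (show q * ((M + 1) * (D + 1)) ≤ n by nlinarith)
    have b1 := scales (c := 16 * q * q) (k := 4 * q) (L := M * (D + 1)) (s := s) hp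
      (J := fun i => J (16 * q * q * h i)) h2 (fun i => (h1 i).ge) (by nlinarith) (by omega)
      ⟨t, le_trans (by rw [← hD]; push_cast; linarith) b0⟩
    by_contra hc
    simp only [not_exists, not_and, not_le] at hc
    have b2 := sum_le_card_nsmul _ _ _ fun x hx => (hc x hx ⟨t, le_trans (by
      have := mem_range.1 (mem_product.1 hx).1
      push_cast
      linarith [show (x.1 : ℤ) ≤ D by omega]) b0⟩).le
    rw [card_product, card_range, card_range, nsmul_eq_mul, sum_product] at b2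
    rw [sum_blocks] at b1
    simp only [sum_comm (s := range M)] at b1
    simp only [add_right_comm _ (1 : ℤ)] at b2
    push_cast at b1 b2
    have c1 : (q * (D + 1) * (M + 1) : ℝ) ≤ n := by exact_mod_cast l3
    have c2 : (n : ℝ) < q * (D + 1) * (M + 1 + 1) := by exact_mod_cast l4
    have c3 : (16 * q * a : ℝ) ≤ M + 1 := by exact_mod_cast l5
    have c4 : (4 * q * (2 * D + 3) : ℝ) ≤ n := by exact_mod_cast hn
    have c5 : (4 * q * (n / (16 * q * q)) : ℝ) = n / (4 * q) := by field_simp; ring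
    have c6 : ((n + 1) / (4 * q) : ℝ) ≤ n / (4 * q) + 1 := by
      rw [add_div]
      gcongr
      rw [div_le_one (by positivity)]
      linarith
    have c7 : (4 * (n / (4 * q)) : ℝ) < (D + 1) * (M + 1 + 1) := by
      rw [← mul_div_assoc, div_lt_iff₀ (by positivity)]
      linarith
    have c8 : (2 * D + 3 : ℝ) ≤ n / (4 * q) := by
      rw [le_div_iff₀ (by positivity)]
      linarith
    have c9 : ((D + 1) * (4 * q) * a : ℝ) ≤ n / (4 * q) := by
      rw [le_div_iff₀ (by positivity)]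
      have := mul_le_mul_of_nonneg_left c3 (show (0 : ℝ) ≤ q * (D + 1) by positivity)
      linarith
    linarith
  · have := h3 x.2 (mem_range.1 (mem_product.1 hx).2)
    exact many hd0 (by positivity) (pow_le_one₀ (by norm_num) (by norm_num)) (leave_dep s this)
      (fun y V => hJ _ s D y V this) M a n (below_dl (by rw [lev_zero]; omega))
  · rw [card_product, card_range, card_range, mul_assoc ((D + 1 : ℝ) * (4 * q))]
    push_cast
    refine mul_le_mul_of_nonneg_left ?_ (by positivity)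
    rw [← pow_mul, one_div, inv_pow, inv_pow, ← div_eq_mul_inv, ← div_eq_mul_inv,
      div_le_div_iff₀ (by positivity) (by positivity), ← pow_add, ← pow_add]
    exact pow_le_pow_right₀ one_le_two (by nlinarith)

lemma link_max (P : Pt d → Prop) : ∀ n m : ℕ,
    expect β d n (fun x w => pr β m x (fun y => w.count y) fun p => (∃ y ∈ w, P y) ∨ ∃ k, P (p k))
      ≤ pr β (m + n) 0 (dl 0) fun p => ∃ k, P (p k)
  | 0, m => by
    have : (fun y : Pt d => List.count y [0]) = dl 0 := funext fun y => by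
      simp [dl, add1, List.count_cons]
    simp only [expect, this, Nat.add_zero]
    refine pr_mono _ fun p hp a => a.elim (fun ⟨y, b, c⟩ => ⟨0, ?_⟩) id
    rwa [hp.1, ← List.mem_singleton.1 b]
  | n + 1, m => by
    rw [← add_assoc, add_right_comm]
    refine le_trans ?_ (link_max P n (m + 1))
    have : ∀ (w : List (Pt d)) (z : Pt d), (fun y => List.count y (z :: w)) =
        add1 (fun y => w.count y) z := fun w z => funext fun y => by
      simp [add1, List.count_cons]
    simp only [expect, this]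
    refine expect_mono n fun x w => sum_le_sum fun s _ => mul_le_mul_of_nonneg_left
      (pr_mono _ fun p hp a => ?_) (trans_nonneg x w s)
    rcases a with ⟨y, b, c⟩ | ⟨k, c⟩
    · rcases List.mem_cons.1 b with rfl | b
      · exact Or.inr ⟨1, by rwa [cons_succ, hp.1]⟩
      · exact Or.inl ⟨y, b, c⟩
    · exact Or.inr ⟨k + 1, c⟩

theorem tail (hd : 2 ≤ d) (hβ : 0 ≤ β) {v : ℝ} (hv : 0 < v) :
    ∃ c : ℝ, 0 < c ∧ ∀ᶠ n : ℕ in Filter.atTop,
      expect β d n (fun _ w => if ∃ y ∈ w, v * n ≤ √(∑ i, (y i : ℝ) ^ 2) then 1 else 0) ≤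
        Real.exp (-c * n) := by
  have hd0 : 0 < d := by omega
  have hd' : (1 : ℝ) ≤ d := by exact_mod_cast hd0
  obtain ⟨q, hq⟩ := exists_nat_gt (d / v)
  have q0 : (0 : ℝ) < q := lt_trans (by positivity) hq
  obtain ⟨C, Q, N, hQ, H⟩ := slow (β := β) hd hβ (q := q) (by exact_mod_cast q0)
  have Q0 : (0 : ℝ) < Q := by exact_mod_cast hQ
  have l2 := Real.log_pos one_lt_two
  refine ⟨Real.log 2 / (2 * Q), by positivity, ?_⟩
  filter_upwards [Filter.eventually_ge_atTop N, (Real.tendsto_exp_atTop.comp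
    (tendsto_natCast_atTop_atTop.const_mul_atTop (show 0 < Real.log 2 / (2 * Q) by
      positivity))).eventually_ge_atTop (2 * d * |C| * 2)] with n hn hC
  have h1 := link_max (β := β) (fun y : Pt d => v * n ≤ √(∑ i, (y i : ℝ) ^ 2)) n 0
  rw [zero_add] at h1
  refine ((expect_mono n fun x w => ?_).trans h1).trans ?_
  · split_ifs with a
    · exact (ind_of (Or.inl a)).ge
    · exact ind_nonneg _
  refine (pr_union univ _ _ (fun p _ ht => ?_) fun s _ => H n hn s).trans ?_
  · obtain ⟨t, ht⟩ := ht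
    by_contra hc
    simp only [mem_univ, true_and, not_exists, not_le] at hc
    have b1 : ∀ i ∈ (univ : Finset (Fin d)), (p t i : ℝ) ^ 2 ≤ (n / q) ^ 2 := fun i _ => by
      have c1 : (q : ℤ) * p t i < n := hc (i, true) t
      have c2 : (q : ℤ) * -p t i < n := hc (i, false) t
      rw [mul_neg] at c2
      rw [div_pow, le_div_iff₀ (by positivity), ← mul_pow, mul_comm]
      exact_mod_cast sq_le_sq' (a := q * p t i) (b := n) (by omega) (by omega)
    have b2 := sum_le_card_nsmul _ _ _ b1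
    rw [card_univ, Fintype.card_fin, nsmul_eq_mul] at b2
    have c1 : (q : ℤ) * p t ⟨0, hd0⟩ < n := hc (⟨0, hd0⟩, true) t
    have c2 : (q : ℤ) * -p t ⟨0, hd0⟩ < n := hc (⟨0, hd0⟩, false) t
    rw [mul_neg] at c2
    have n0 : (0 : ℝ) < n := by exact_mod_cast (show (0 : ℤ) < n by omega)
    have b3 : (d * (n / q) : ℝ) < v * n := by
      rw [div_lt_iff₀ hv] at hq
      rw [← mul_div_assoc, div_lt_iff₀ q0]
      nlinarith
    have b4 : √(∑ i, (p t i : ℝ) ^ 2) ≤ d * (n / q) := by
      refine Real.sqrt_le_iff.2 ⟨by positivity, b2.trans ?_⟩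
      rw [mul_pow]
      gcongr
      nlinarith
    linarith
  · simp only [card_univ, Fintype.card_prod, Fintype.card_fin, Fintype.card_bool]
    have b1 : (n : ℝ) ≤ Q * ((n / Q : ℕ) + 1) := by exact_mod_cast (Nat.lt_mul_div_succ n hQ).le
    have b2 : ((1 : ℝ) / 2) ^ (n / Q) ≤ 2 * (Real.exp (-(Real.log 2 / (2 * Q)) * n) *
        Real.exp (-(Real.log 2 / (2 * Q)) * n)) := by
      rw [← Real.exp_add, ← Real.exp_log two_pos, ← Real.exp_add, Real.log_exp, one_div,
        ← Real.exp_neg, ← Real.exp_nat_mul, Real.exp_le_exp, Real.exp_log two_pos]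
      have : Real.log 2 / (2 * Q) * n ≤ Real.log 2 * ((n / Q : ℕ) + 1) / 2 := by
        rw [div_mul_eq_mul_div, div_le_div_iff₀ (by positivity) two_pos]
        nlinarith
      linarith
    have b3 : Real.exp (Real.log 2 / (2 * Q) * n) * Real.exp (-(Real.log 2 / (2 * Q)) * n) = 1 := by
      rw [← Real.exp_add]
      simp
    have b4 := Real.exp_pos (-(Real.log 2 / (2 * Q)) * n)
    simp only [Function.comp] at hC
    generalize Real.exp (-(Real.log 2 / (2 * Q)) * n) = e at b2 b3 b4 ⊢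
    have b5 := mul_le_mul_of_nonneg_right hC b4.le
    have b6 := mul_le_mul (le_abs_self C) b2 (by positivity) (abs_nonneg C)
    have b7 := mul_le_mul_of_nonneg_left b6 (show (0 : ℝ) ≤ d * 2 by positivity)
    push_cast
    nlinarith

end Pool.Agent.Lib.MP_aa337a_pr.Sb
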